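import Pool.Agent.Lib.MP_bcd198_co.P.Basic

/-!
# JOB P.As1: asymptotics of `sNum` and `MNum` under a shift

PROVE the theorems below (keep the statements; add private lemmas).  Definitions (`Defs.lean`):
`MNum m = (2m)! / (2^m m!)`, `sNum r m = 2^m m! / ((2r)^(m/r) (m/r)!)` (natural division `m / r`).
`~[l]` is `Asymptotics.IsEquivalent l`.  Useful: Mathlib `isEquivalent_descFactorial (k : ℕ) :
(fun n ↦ (n.descFactorial k : ℝ)) ~[atTop] fun n ↦ (n : ℝ) ^ k`
(`Mathlib/Analysis/SpecialFunctions/Choose.lean`), `IsEquivalent.mul`, `.div`, `.inv`, `.pow`,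
`.comp_tendsto`, `.mono`, `.congr_left`, `.congr_right`, `Nat.factorial_mul_descFactorial :
k ≤ n → (n - k)! * n.descFactorial k = n !`.

* `fact_shift (x)`: `(fun n : ℕ => ((n - x)! : ℝ) * (n : ℝ) ^ x) ~[atTop] fun n => (n ! : ℝ)`:
  for `n ≥ x`, `n ! = (n - x)! * n.descFactorial x`, and `descFactorial ~ n ^ x`.

* `sNum_shift` (`r > 0`, `x = r * y`): let `m = r * k` (on the filter `𝓟 {m | r ∣ m}`),
  `m ≥ x`.  Then `m / r = k`, `(m - x) / r = k - y`, `x / r = y` and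
  `sNum r (m - x) = 2^(m-x) (m-x)! / ((2r)^(k-y) (k-y)!)`
  `= sNum r m * [ (m-x)!/m! ] * [k!/(k-y)!] * 2^(-x) * (2r)^y`.
  By `fact_shift`, `(m-x)!/m! ~ m^(-x)`, `k!/(k-y)! ~ k^y` with `k = m / r → ∞`, so the ratio is
  `~ m^(-x) * k^y * 2^(-x) * (2r)^y = (2m)^(-x) * (2 r k)^y = (2m)^(-x) * (2m)^y`.  Hence
  `sNum r (m - x) * (2m)^(x-y) ~ sNum r m`.
  (It may be convenient to prove it as `Tendsto (ratio) l (𝓝 1)` and use
  `isEquivalent_iff_tendsto_one` / `isEquivalent_of_tendsto_one`.)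

* `MNum_shift` (`y ≤ x`): `MNum (m - x) * (2m)^(x-y) ~ MNum (m - y)`: with
  `MNum k = (2k)!/(2^k k!)`,
  `MNum (m-x)/MNum m = (2m-2x)!/(2m)! * m!/(m-x)! * 2^x ~ (2m)^(-2x) * m^x * 2^x = (2m)^(-x)`, so
  `MNum (m-x) * (2m)^x ~ MNum m ~ MNum (m-y) * (2m)^y`; divide by `(2m)^y`.
-/

set_option autoImplicit false
set_option linter.unusedSectionVars false

namespace MPbcd198.P

open Equiv Filter Asymptotics Topology

theorem fact_shift (x : ℕ) :
    (fun n : ℕ => ((n - x).factorial : ℝ) * (n : ℝ) ^ x) ~[atTop]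
      fun n : ℕ => (n.factorial : ℝ) := by
  have h1 : (fun n : ℕ => ((n - x).factorial : ℝ) * (n : ℝ) ^ x) ~[atTop]
      fun n : ℕ => ((n - x).factorial : ℝ) * (n.descFactorial x : ℝ) :=
    IsEquivalent.mul IsEquivalent.refl (isEquivalent_descFactorial x).symm
  refine h1.congr_right ?_
  filter_upwards [eventually_ge_atTop x] with n hn
  exact_mod_cast Nat.factorial_mul_descFactorial hn

theorem sNum_shift {r x : ℕ} (hr : 0 < r) (hx : r ∣ x) :
    (fun m : ℕ => sNum r (m - x) * (2 * m : ℝ) ^ (x - x / r)) ~[atTop ⊓ 𝓟 {m | r ∣ m}]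
      fun m : ℕ => sNum r m := by
  obtain ⟨y, rfl⟩ := hx
  rw [Nat.mul_div_cancel_left y hr]
  have hA : (fun m : ℕ => (2 : ℝ) ^ m * (((m - r * y).factorial : ℝ) * (m : ℝ) ^ (r * y)))
      ~[atTop ⊓ 𝓟 {m | r ∣ m}] fun m : ℕ => (2 : ℝ) ^ m * (m.factorial : ℝ) :=
    IsEquivalent.mul IsEquivalent.refl ((fact_shift (r * y)).mono inf_le_left)
  have ht : Tendsto (fun m : ℕ => m / r) atTop atTop := Nat.tendsto_div_const_atTop hr.ne'
  have hB : (fun m : ℕ => (2 * r : ℝ) ^ (m / r) * (((m / r - y).factorial : ℝ) * ((m / r : ℕ) : ℝ) ^ y))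
      ~[atTop ⊓ 𝓟 {m | r ∣ m}] fun m : ℕ => (2 * r : ℝ) ^ (m / r) * ((m / r).factorial : ℝ) :=
    IsEquivalent.mul IsEquivalent.refl (((fact_shift y).comp_tendsto ht).mono inf_le_left)
  have hC := hA.div hB
  refine (hC.congr_left ?_).congr_right ?_
  · rw [EventuallyEq, eventually_inf_principal]
    filter_upwards [eventually_ge_atTop (r * y + 1)] with m hm hrm
    obtain ⟨k, rfl⟩ := hrm
    have hky : y ≤ k := by
      have : r * y ≤ r * k := by omega
      exact Nat.le_of_mul_le_mul_left this hr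
    obtain ⟨j, rfl⟩ := Nat.exists_eq_add_of_le hky
    have hyr : y ≤ r * y := Nat.le_mul_of_pos_left y hr
    unfold sNum
    simp only [Pi.div_apply]
    rw [show r * (y + j) - r * y = r * j by rw [mul_add]; omega, Nat.mul_div_cancel_left _ hr,
      Nat.mul_div_cancel_left _ hr, Nat.add_sub_cancel_left]
    have hr0 : (r : ℝ) ≠ 0 := by exact_mod_cast hr.ne'
    have hk0 : ((y + j : ℕ) : ℝ) ≠ 0 := by
      intro h
      have h' : y + j = 0 := by exact_mod_cast h
      rw [h', mul_zero] at hm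
      omega
    have hj0 : (j.factorial : ℝ) ≠ 0 := by exact_mod_cast (Nat.factorial_pos j).ne'
    have e1 : (2 * ((r * (y + j) : ℕ) : ℝ)) ^ (r * y - y) = (2 * ((r * (y + j) : ℕ) : ℝ)) ^ (r * y) / (2 * ((r * (y + j) : ℕ) : ℝ)) ^ y := by
      rw [eq_div_iff, ← pow_add, Nat.sub_add_cancel hyr]
      push_cast at hk0 ⊢
      positivity
    rw [e1]
    push_cast at hk0 ⊢
    rw [show r * (y + j) = r * y + r * j by ring, pow_add (2 : ℝ) (r * y) (r * j), pow_add (2 * (r : ℝ)) y j]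
    generalize ((y : ℝ) + j) = k at hk0 ⊢
    have e2 : (2 * ((r : ℝ) * k)) ^ y = (2 * (r : ℝ)) ^ y * k ^ y := by
      rw [← mul_pow, mul_assoc]
    have e3 : (2 * ((r : ℝ) * k)) ^ (r * y) = 2 ^ (r * y) * ((r : ℝ) * k) ^ (r * y) := by
      rw [← mul_pow]
    rw [e2, e3]
    field_simp
  · rw [EventuallyEq, eventually_inf_principal]
    filter_upwards with m hrm
    rfl

private theorem As1_MNum (x : ℕ) :
    (fun m : ℕ => MNum (m - x) * (2 * m : ℝ) ^ x) ~[atTop] fun m : ℕ => MNum m := by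
  have ht : Tendsto (fun m : ℕ => 2 * m) atTop atTop := tendsto_id.const_mul_atTop' (by norm_num)
  have hA : (fun m : ℕ => (((2 * m - 2 * x).factorial : ℝ) * ((2 * m : ℕ) : ℝ) ^ (2 * x)))
      ~[atTop] fun m : ℕ => ((2 * m).factorial : ℝ) :=
    (fact_shift (2 * x)).comp_tendsto ht
  have hB : (fun m : ℕ => (2 : ℝ) ^ m * (((m - x).factorial : ℝ) * (m : ℝ) ^ x))
      ~[atTop] fun m : ℕ => (2 : ℝ) ^ m * (m.factorial : ℝ) :=
    IsEquivalent.mul IsEquivalent.refl (fact_shift x)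
  have hC := hA.div hB
  refine (hC.congr_left ?_).congr_right ?_
  · filter_upwards [eventually_ge_atTop (x + 1)] with m hm
    obtain ⟨j, rfl⟩ := Nat.exists_eq_add_of_le (show x ≤ m by omega)
    unfold MNum
    simp only [Pi.div_apply]
    rw [Nat.add_sub_cancel_left, show 2 * (x + j) - 2 * x = 2 * j by omega]
    have hk0 : ((x : ℝ) + j) ≠ 0 := by
      have : (0 : ℝ) < ((x + j : ℕ) : ℝ) := by exact_mod_cast (by omega : 0 < x + j)
      push_cast at this
      exact this.ne'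
    have hj0 : (j.factorial : ℝ) ≠ 0 := by exact_mod_cast (Nat.factorial_pos j).ne'
    push_cast
    generalize ((x : ℝ) + j) = k at hk0 ⊢
    rw [pow_add (2 : ℝ) x j, mul_pow, mul_pow, show 2 * x = x + x by ring, pow_add, pow_add]
    field_simp
  · filter_upwards with m
    rfl

theorem MNum_shift {x y : ℕ} (h : y ≤ x) :
    (fun m : ℕ => MNum (m - x) * (2 * m : ℝ) ^ (x - y)) ~[atTop] fun m : ℕ => MNum (m - y) := by
  have h1 : (fun m : ℕ => MNum (m - x) * (2 * m : ℝ) ^ x) ~[atTop]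
      (fun m : ℕ => MNum (m - y) * (2 * m : ℝ) ^ y) := (As1_MNum x).trans (As1_MNum y).symm
  have h2 : (fun m : ℕ => (2 * m : ℝ) ^ y) ~[atTop] (fun m : ℕ => (2 * m : ℝ) ^ y) := IsEquivalent.refl
  refine ((h1.div h2).congr_left ?_).congr_right ?_
  · filter_upwards [eventually_ge_atTop 1] with m hm
    have hm0 : (2 * m : ℝ) ≠ 0 := by
      have : (0 : ℝ) < m := by exact_mod_cast hm
      positivity
    simp only [Pi.div_apply]
    rw [mul_div_assoc]
    congr 1
    rw [div_eq_iff (pow_ne_zero _ hm0), ← pow_add, Nat.sub_add_cancel h]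
  · filter_upwards [eventually_ge_atTop 1] with m hm
    have hm0 : (2 * m : ℝ) ≠ 0 := by
      have : (0 : ℝ) < m := by exact_mod_cast hm
      positivity
    simp only [Pi.div_apply]
    rw [mul_div_assoc, div_self (pow_ne_zero _ hm0), mul_one]

end MPbcd198.P
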