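import Pool.Agent.Lib.MP_bcd198_co.P.As1

/-!
# JOB P.As2: the combined asymptotics of Theorem P

PROVE `asym_comb` below (keep the statement; add private lemmas).  You may use `sNum_shift`,
`MNum_shift` of `P/As1.lean` (their proof is another job) and Mathlib's
`isEquivalent_descFactorial`.

PROOF.  `s = 2 p s'`, `N = 2 q N'`, `s + n = 4 t`; so `s / 2 = p s'`, `N / 2 = q N'`,
`(s + n) / 2 = 2 t` and these are divisible by `p`, `q`, `2`.  Write `X = (2 * m : ℝ)` and let `l`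
be the filter.  On `l` (`IsEquivalent.mono`, `inf_le_inf`, `principal_mono`):
 (a) `(2*m).descFactorial N ~ X ^ N` (compose `isEquivalent_descFactorial N` with
     `m ↦ 2 * m → ∞`);
 (b) `sNum p (m - s/2) * X ^ (s/2 - s/2/p) ~ sNum p m`;
 (c) `sNum q (m - N/2) * X ^ (N/2 - N/2/q) ~ sNum q m`;
 (d) `sNum 2 (m - (s+n)/2) * X ^ ((s+n)/2 - (s+n)/2/2) ~ sNum 2 m`;
 (e) `MNum (m - N/2) * X ^ (N/2 - s/2) ~ MNum (m - s/2)`, so
     `MNum (m - N/2) / MNum (m - s/2) ~ 1 / X ^ (N/2 - s/2)`.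
Multiplying (b)-(e) and dividing by the powers of `X` (`X > 0` for `m ≥ 1`), the left hand side is
`~ X ^ N * (sNum p m * sNum q m * sNum 2 m) / (X ^ k)` with
`k = (s/2 - s/2/p) + (N/2 - N/2/q) + ((s+n)/2 - (s+n)/2/2) + (N/2 - s/2)`, and
`X ^ N / X ^ k = X ^ (N - k : ℝ)` (`Real.rpow_sub`, `Real.rpow_natCast`), where
`N - k = (s/2)/p + (N/2)/q - (s+n)/4 = s/(2p) + N/(2q) - s/4 - n/4 = chi` as real numbers
(`(s/2 : ℕ) = s/2` etc. by divisibility: substitute `s = 2 * p * s'`, `N = 2 * q * N'`,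
`s + n = 4 * t`; natural subtractions are harmless as `s' ≤ p s'`, `N' ≤ q N'`, `t ≤ 2 t`,
`s ≤ N`).
-/

set_option autoImplicit false
set_option linter.unusedSectionVars false

namespace MPbcd198.P

open Equiv Filter Asymptotics Topology

private theorem As2_MNum_pos (m : ℕ) : 0 < MNum m := by
  unfold MNum
  have h1 : (0 : ℝ) < (2 * m).factorial := by exact_mod_cast Nat.factorial_pos _
  have h2 : (0 : ℝ) < m.factorial := by exact_mod_cast Nat.factorial_pos _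
  positivity

theorem asym_comb {p q s n N : ℕ} (hp : 0 < p) (hq : 0 < q) (h1 : 2 * p ∣ s) (h2 : 2 * q ∣ N)
    (h3 : 4 ∣ s + n) (h4 : n ≤ s) (h5 : s ≤ N) (chi : ℝ)
    (hchi : chi = (s : ℝ) / (2 * p) + (N : ℝ) / (2 * q) - (s : ℝ) / 4 - (n : ℝ) / 4) :
    (fun m : ℕ => ((2 * m).descFactorial N : ℝ) *
        (sNum p (m - s / 2) * sNum q (m - N / 2) * sNum 2 (m - (s + n) / 2) *
          MNum (m - N / 2) / MNum (m - s / 2)))
      ~[atTop ⊓ 𝓟 {m | p ∣ m ∧ q ∣ m ∧ 2 ∣ m}]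
        fun m : ℕ => (2 * m : ℝ) ^ chi * (sNum p m * sNum q m * sNum 2 m) := by
  obtain ⟨s', hs'⟩ := h1
  obtain ⟨N', hN'⟩ := h2
  obtain ⟨t, ht'⟩ := h3
  have es : s / 2 = p * s' := by rw [hs', mul_assoc, Nat.mul_div_cancel_left _ (by norm_num)]
  have eN : N / 2 = q * N' := by rw [hN', mul_assoc, Nat.mul_div_cancel_left _ (by norm_num)]
  have et : (s + n) / 2 = 2 * t := by omega
  have hpN : p * s' ≤ q * N' := by rw [← es, ← eN]; exact Nat.div_le_div_right h5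
  have hps : s' ≤ p * s' := Nat.le_mul_of_pos_left _ hp
  have hqN : N' ≤ q * N' := Nat.le_mul_of_pos_left _ hq
  rw [es, eN, et]
  have hle : ∀ r : ℕ, {m : ℕ | p ∣ m ∧ q ∣ m ∧ 2 ∣ m} ⊆ {m | r ∣ m} →
      atTop ⊓ 𝓟 {m : ℕ | p ∣ m ∧ q ∣ m ∧ 2 ∣ m} ≤ atTop ⊓ 𝓟 {m | r ∣ m} := fun r hr =>
    inf_le_inf le_rfl (principal_mono.2 hr)
  have ha : (fun m : ℕ => ((2 * m).descFactorial N : ℝ)) ~[atTop ⊓ 𝓟 {m | p ∣ m ∧ q ∣ m ∧ 2 ∣ m}]
      fun m : ℕ => ((2 * m : ℕ) : ℝ) ^ N := by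
    have ht : Tendsto (fun m : ℕ => 2 * m) atTop atTop := tendsto_id.const_mul_atTop' (by norm_num)
    exact ((isEquivalent_descFactorial N).comp_tendsto ht).mono inf_le_left
  have hb := (sNum_shift (r := p) (x := p * s') hp (dvd_mul_right _ _)).mono (hle p fun m hm => hm.1)
  have hc := (sNum_shift (r := q) (x := q * N') hq (dvd_mul_right _ _)).mono (hle q fun m hm => hm.2.1)
  have hd := (sNum_shift (r := 2) (x := 2 * t) (by norm_num) (dvd_mul_right _ _)).mono (hle 2 fun m hm => hm.2.2)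
  have he := (MNum_shift hpN).mono (inf_le_left (a := atTop) (b := 𝓟 {m : ℕ | p ∣ m ∧ q ∣ m ∧ 2 ∣ m}))
  rw [Nat.mul_div_cancel_left _ hp] at hb
  rw [Nat.mul_div_cancel_left _ hq] at hc
  rw [Nat.mul_div_cancel_left _ (by norm_num)] at hd
  have hf : (fun m : ℕ => MNum (m - p * s')) ~[atTop ⊓ 𝓟 {m | p ∣ m ∧ q ∣ m ∧ 2 ∣ m}]
      (fun m : ℕ => MNum (m - p * s')) := IsEquivalent.refl
  have hg : (fun m : ℕ => (2 * m : ℝ) ^ ((p * s' - s') + (q * N' - N') + (2 * t - t) + (q * N' - p * s')))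
      ~[atTop ⊓ 𝓟 {m | p ∣ m ∧ q ∣ m ∧ 2 ∣ m}]
      (fun m : ℕ => (2 * m : ℝ) ^ ((p * s' - s') + (q * N' - N') + (2 * t - t) + (q * N' - p * s'))) :=
    IsEquivalent.refl
  have hall := (ha.mul (((hb.mul hc).mul hd).mul (he.div hf))).div hg
  have hpos : ∀ᶠ m : ℕ in atTop ⊓ 𝓟 {m | p ∣ m ∧ q ∣ m ∧ 2 ∣ m}, 1 ≤ m :=
    Filter.Eventually.filter_mono inf_le_left (eventually_ge_atTop 1)
  refine (hall.congr_left ?_).congr_right ?_
  · filter_upwards [hpos] with m hm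
    have hm0 : (2 * m : ℝ) ≠ 0 := by
      have : (0 : ℝ) < m := by exact_mod_cast hm
      positivity
    simp only [Pi.div_apply, Pi.mul_apply]
    have hM := (As2_MNum_pos (m - p * s')).ne'
    rw [pow_add, pow_add, pow_add]
    generalize (2 * m : ℝ) = X at hm0 ⊢
    field_simp
  · filter_upwards [hpos] with m hm
    have hm0 : (0 : ℝ) < 2 * m := by
      have : (0 : ℝ) < m := by exact_mod_cast hm
      positivity
    simp only [Pi.div_apply, Pi.mul_apply]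
    have hM := (As2_MNum_pos (m - p * s')).ne'
    rw [div_self hM, mul_one]
    have hk : (2 * m : ℝ) ^ chi * (2 * m : ℝ) ^ ((p * s' - s') + (q * N' - N') + (2 * t - t) + (q * N' - p * s'))
        = (2 * m : ℝ) ^ N := by
      rw [← Real.rpow_natCast, ← Real.rpow_natCast, ← Real.rpow_add hm0]
      congr 1
      have hn : (n : ℝ) = 4 * t - s := by
        have : ((s + n : ℕ) : ℝ) = ((4 * t : ℕ) : ℝ) := by rw [ht']
        push_cast at this
        linarith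
      have hp0 : (p : ℝ) ≠ 0 := by exact_mod_cast hp.ne'
      have hq0 : (q : ℝ) ≠ 0 := by exact_mod_cast hq.ne'
      have hs1 : (s : ℝ) = 2 * p * s' := by rw [hs']; push_cast; ring
      have hN1 : (N : ℝ) = 2 * q * N' := by rw [hN']; push_cast; ring
      rw [Nat.cast_add, Nat.cast_add, Nat.cast_add, Nat.cast_sub hps, Nat.cast_sub hqN,
        Nat.cast_sub (by omega), Nat.cast_sub hpN, hchi, hn, hs1, hN1]
      push_cast
      field_simp
      ring
    push_cast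
    rw [← hk]
    have hX : (2 * m : ℝ) ^ ((p * s' - s') + (q * N' - N') + (2 * t - t) + (q * N' - p * s')) ≠ 0 :=
      pow_ne_zero _ hm0.ne'
    generalize (2 * m : ℝ) ^ ((p * s' - s') + (q * N' - N') + (2 * t - t) + (q * N' - p * s')) = Y at hX ⊢
    field_simp

end MPbcd198.P
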