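import Pool.Agent.Lib.MP_bcd198_co.Types

/-!
# MP_bcd198_co, Stream P: basic transport lemmas

Everything in this file is proved.  `IsPM`, `Rel r` under `Equiv.sumCongr`, under conjugation by an
equivalence, the pointwise form of `Rel 2`, and a splitting lemma for permutations of a sum.
-/

set_option autoImplicit false

namespace MPbcd198.P

open Equiv

/-- minimal periods are transported by injective semiconjugacies -/
theorem minimalPeriod_semiconj {α β : Type} {f : α → α} {g : β → β} {i : α → β}
    (hi : Function.Injective i) (h : ∀ x, i (f x) = g (i x)) (x : α) :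
    Function.minimalPeriod g (i x) = Function.minimalPeriod f x := by
  have hs : Function.Semiconj i f g := h
  rw [Function.minimalPeriod_eq_minimalPeriod_iff]
  intro n
  have h1 : g^[n] (i x) = i (f^[n] x) := ((hs.iterate_right n) x).symm
  rw [Function.IsPeriodicPt, Function.IsFixedPt, h1, Function.IsPeriodicPt, Function.IsFixedPt]
  exact hi.eq_iff

theorem isPM_sumCongr {α β : Type} {a : Perm α} {b : Perm β} :
    IsPM (Equiv.sumCongr a b) ↔ IsPM a ∧ IsPM b := by
  constructor
  · intro h
    refine ⟨fun x => ?_, fun x => ?_⟩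
    · have := h (Sum.inl x)
      simpa using this
    · have := h (Sum.inr x)
      simpa using this
  · rintro ⟨h1, h2⟩ (x | x)
    · simpa using h1 x
    · simpa using h2 x

theorem rel_sumCongr {α β : Type} {r : ℕ} {a a' : Perm α} {b b' : Perm β} :
    Rel r (Equiv.sumCongr a b) (Equiv.sumCongr a' b') ↔ Rel r a a' ∧ Rel r b b' := by
  have hl : ∀ x, Function.minimalPeriod (⇑(Equiv.sumCongr a b * Equiv.sumCongr a' b'))
      (Sum.inl x) = Function.minimalPeriod (⇑(a * a')) x := fun x =>
    minimalPeriod_semiconj Sum.inl_injective (fun y => by simp) x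
  have hr : ∀ x, Function.minimalPeriod (⇑(Equiv.sumCongr a b * Equiv.sumCongr a' b'))
      (Sum.inr x) = Function.minimalPeriod (⇑(b * b')) x := fun x =>
    minimalPeriod_semiconj Sum.inr_injective (fun y => by simp) x
  constructor
  · intro h
    exact ⟨fun x => (hl x).symm.trans (h _), fun x => (hr x).symm.trans (h _)⟩
  · rintro ⟨h1, h2⟩ (x | x)
    · rw [hl]; exact h1 x
    · rw [hr]; exact h2 x

theorem isPM_permCongr {α β : Type} (e : α ≃ β) {a : Perm α} :
    IsPM (e.permCongr a) ↔ IsPM a := by
  constructor
  · intro h x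
    have := h (e x)
    simpa using this
  · intro h y
    have := h (e.symm y)
    refine ⟨fun h' => this.1 ?_, ?_⟩
    · rw [Equiv.permCongr_apply] at h'
      exact e.injective (by rw [h', e.apply_symm_apply])
    · simp [this.2]

theorem rel_permCongr {α β : Type} (e : α ≃ β) {r : ℕ} {a b : Perm α} :
    Rel r (e.permCongr a) (e.permCongr b) ↔ Rel r a b := by
  have hl : ∀ x, Function.minimalPeriod (⇑(e.permCongr a * e.permCongr b)) (e x) =
      Function.minimalPeriod (⇑(a * b)) x := fun x =>
    minimalPeriod_semiconj e.injective (fun y => by simp) x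
  constructor
  · intro h x
    rw [← hl]; exact h _
  · intro h y
    obtain ⟨x, rfl⟩ := e.surjective y
    rw [hl]; exact h x

/-- `Rel 2` pointwise -/
theorem rel_two_iff {α : Type} {a c : Perm α} (ha : IsPM a) (hc : IsPM c) :
    Rel 2 a c ↔ ∀ x, a x ≠ c x ∧ c (a x) = a (c x) := by
  have key : ∀ x, Function.minimalPeriod (⇑(a * c)) x = 2 ↔ (a x ≠ c x ∧ c (a x) = a (c x)) := by
    intro x
    have h2 : (Function.IsPeriodicPt (⇑(a * c)) 2 x) ↔ c (a x) = a (c x) := by
      have e1 : ((⇑(a * c))^[2]) x = a (c (a (c x))) := rfl
      rw [Function.IsPeriodicPt, Function.IsFixedPt, e1]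
      constructor
      · intro h
        have h' : c (a (c x)) = a x := by
          have := congrArg a h
          rwa [(ha _).2] at this
        have h'' := congrArg c h'
        rw [(hc _).2] at h''
        exact h''.symm
      · intro h
        rw [← h, (hc _).2, (ha _).2]
    have h1 : (Function.IsPeriodicPt (⇑(a * c)) 1 x) ↔ a x = c x := by
      have e1 : ((⇑(a * c))^[1]) x = a (c x) := rfl
      rw [Function.IsPeriodicPt, Function.IsFixedPt, e1]
      constructor
      · intro h
        have := congrArg a h
        rw [(ha _).2] at this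
        exact this.symm
      · intro h
        rw [← h, (ha _).2]
    constructor
    · intro h
      refine ⟨fun h3 => ?_, h2.1 ?_⟩
      · have := (h1.2 h3).minimalPeriod_le one_pos
        omega
      · rw [← h]; exact Function.isPeriodicPt_minimalPeriod _ _
    · rintro ⟨h3, h4⟩
      have hd := (h2.2 h4).minimalPeriod_dvd
      rcases (Nat.dvd_prime Nat.prime_two).1 hd with h5 | h5
      · exfalso
        apply h3
        rw [← h1, ← h5]
        exact Function.isPeriodicPt_minimalPeriod _ _
      · exact h5
  constructor
  · intro h x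
    exact (key x).1 (h x)
  · intro h x
    exact (key x).2 (h x)

/-- a permutation of a sum which preserves the left summand is a `sumCongr` -/
theorem exists_sumCongr {α β : Type} (f : Perm (α ⊕ β)) (g : Perm α)
    (h : ∀ x, f (Sum.inl x) = Sum.inl (g x)) : ∃ k : Perm β, f = Equiv.sumCongr g k := by
  have hr : ∀ y : β, ∃ z : β, f (Sum.inr y) = Sum.inr z := by
    intro y
    rcases hy : f (Sum.inr y) with x | z
    · exfalso
      have h1 := h (g.symm x)
      rw [g.apply_symm_apply, ← hy] at h1
      exact Sum.inl_ne_inr (f.injective h1)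
    · exact ⟨z, rfl⟩
  have hr' : ∀ y : β, ∃ z : β, f.symm (Sum.inr y) = Sum.inr z := by
    intro y
    rcases hy : f.symm (Sum.inr y) with x | z
    · exfalso
      have h1 := h x
      rw [← hy, f.apply_symm_apply] at h1
      exact Sum.inr_ne_inl h1
    · exact ⟨z, rfl⟩
  choose k hk using hr
  choose k' hk' using hr'
  refine ⟨⟨k, k', fun y => ?_, fun y => ?_⟩, ?_⟩
  · apply Sum.inr_injective (α := α)
    rw [← hk', ← hk, f.symm_apply_apply]
  · apply Sum.inr_injective (α := α)
    rw [← hk, ← hk', f.apply_symm_apply]
  · ext x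
    rcases x with x | y
    · rw [h]; rfl
    · rw [hk]; rfl

theorem sumCongr_right_injective {α β : Type} (g : Perm α) :
    Function.Injective (fun k : Perm β => (Equiv.sumCongr g k : Perm (α ⊕ β))) := by
  intro k k' h
  ext y
  have := congrArg (fun f : Perm (α ⊕ β) => f (Sum.inr y)) h
  simpa using this

end MPbcd198.P
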