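import Pool.Agent.Lib.MP_bcd198_co.P.Basic

/-!
# JOB P.RelCard: divisibility of the number of flags

PROVE the theorem `two_mul_dvd_card` below (add as many private lemmas as you like, keep the
statement).

Let `Ω` be finite, `a`, `b` fixed point free involutions (`IsPM`) such that every orbit of
`g = a * b` has exactly `r` elements (`Rel r a b`: `Function.minimalPeriod ⇑(a * b) x = r` for all
`x`).  Then `2 * r ∣ Fintype.card Ω`.

PROOF.  If `Ω` is empty the claim is trivial.  Otherwise `r > 0` (minimal periods of a permutation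
of a finite type are positive: `Function.minimalPeriod_pos_of_mem_periodicPts`, and for a finite
type all points are periodic, `Function.Injective.mem_periodicPts`).

(1) `a` conjugates `g` to `g⁻¹`: `a * g * a = b * a = g⁻¹` since `a * a = 1`, `b * b = 1`
(`ext x; exact (ha x).2`).  Hence `a * g ^ k * a = g ^ (-k)`, i.e. `a (g ^ k x) = g ^ (-k) (a x)`
for all `k : ℤ`.

(2) `a x ≠ (g ^ k) x` for all `k : ℤ`, `x`.  Suppose `a x = g ^ k x`.  If `k = 2 j` then, applying
`g ^ (-j)`, `a (g ^ j x) = g ^ (-j) (a x) = g ^ (-j) (g ^ (2 j) x) = g ^ j x`, contradiction to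
`IsPM a`.  If `k = 2 j + 1` then `a (g ^ j x) = g ^ (-j) (a x) = g ^ (j + 1) x = g (g ^ j x)
= a (b (g ^ j x))`, so (apply `a`) `g ^ j x = b (g ^ j x)`, contradiction to `IsPM b`.

(3) Counting.  Consider the setoid `Equiv.Perm.SameCycle.setoid g` (`SameCycle g x y ↔ ∃ i : ℤ,
(g ^ i) x = y`).  Every class has exactly `r` elements: the class of `x` is the image of
`Finset.range r` under `i ↦ (g ^ i) x`, injective because `r` is the minimal period (alternatively
`Function.minimalPeriod` = card of the orbit: `MulAction.minimalPeriod_eq_card`, or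
`Function.periodicOrbit`, `Function.periodicOrbit_length`, `Function.nodup_periodicOrbit`).
So `card Ω = r * card Q`, `Q` = the quotient (e.g. `Fintype.card_sigma` via
`Equiv.sigmaFiberEquiv (Quotient.mk _)`, or `Finset.card_eq_sum_card_fiberwise`).
The involution `a` induces (by (1)) an involution of `Q` without fixed points (by (2)).  Hence
`card Q` is even: for a fixed point free involution `f` on a finite type the cardinality is even
(e.g. `Finset.sum_involution`/`Finset.prod_involution` applied to the constant `1 : ZMod 2`, or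
`Equiv.Perm.card_fixedPoints_modEq`, or `Function.Involutive` + `Finset.card_involution`…).
So `2 * r ∣ r * card Q = card Ω`.

Alternative for (3): strong induction on the cardinality of a finset `T` closed under `a` and `b`:
if `x ∈ T`, remove the `2 r`-element set `{g ^ i x} ∪ {a g ^ i x}` (`i < r`).  Choose whichever is
easier.
-/

set_option autoImplicit false

namespace MPbcd198.P

open Equiv

theorem two_mul_dvd_card {Ω : Type} [Fintype Ω] {r : ℕ} {a b : Perm Ω} (ha : IsPM a)
    (hb : IsPM b) (h : Rel r a b) : 2 * r ∣ Fintype.card Ω := by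
  classical
  obtain ⟨g, hg⟩ : ∃ g : Perm Ω, g = a * b := ⟨_, rfl⟩
  have hgx : ∀ y, g y = a (b y) := fun y => by rw [hg]; rfl
  have haa : a * a = 1 := Equiv.ext fun x => (ha x).2
  have hbb : b * b = 1 := Equiv.ext fun x => (hb x).2
  have hainv : a⁻¹ = a := inv_eq_of_mul_eq_one_left haa
  have hbinv : b⁻¹ = b := inv_eq_of_mul_eq_one_left hbb
  have hconj : a * g * a⁻¹ = g⁻¹ := by
    rw [hainv, hg, mul_inv_rev, hbinv, hainv, ← mul_assoc, haa, one_mul]
  have hz : ∀ (k : ℤ) (x : Ω), a ((g ^ k) x) = (g ^ (-k)) (a x) := by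
    intro k x
    have h1 : a * g ^ k * a⁻¹ = g ^ (-k) := by rw [← conj_zpow, hconj, inv_zpow, zpow_neg]
    have h2 := congrArg (fun f : Perm Ω => f (a x)) h1
    simp only [hainv, Perm.mul_apply, (ha x).2] at h2
    exact h2
  have key : ∀ (k : ℤ) (x : Ω), a x ≠ (g ^ k) x := by
    intro k x hk
    rcases Int.even_or_odd' k with ⟨j, rfl | rfl⟩
    · apply (ha ((g ^ j) x)).1
      rw [hz, hk, ← Perm.mul_apply, ← zpow_add]
      congr 2
      ring
    · apply (hb ((g ^ j) x)).1
      have h1 : a ((g ^ j) x) = g ((g ^ j) x) := by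
        rw [hz, hk, ← Perm.mul_apply, ← zpow_add]
        have : -j + (2 * j + 1) = 1 + j := by ring
        rw [this, zpow_add, zpow_one, Perm.mul_apply]
      rw [hgx] at h1
      exact (a.injective h1).symm
  let Q := MulAction.orbitRel.Quotient (Subgroup.zpowers g) Ω
  have hrel : ∀ x y : Ω, MulAction.orbitRel (Subgroup.zpowers g) Ω x y ↔
      ∃ k : ℤ, (g ^ k) y = x := by
    intro x y
    rw [MulAction.orbitRel_apply, MulAction.mem_orbit_iff]
    constructor
    · rintro ⟨⟨_, k, rfl⟩, hk⟩
      exact ⟨k, hk⟩
    · rintro ⟨k, hk⟩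
      exact ⟨⟨g ^ k, k, rfl⟩, hk⟩
  let F : Q → Q := Quotient.map a (by
    intro x y hxy
    obtain ⟨k, hk⟩ := (hrel x y).1 hxy
    refine (hrel _ _).2 ⟨-k, ?_⟩
    rw [← hz, hk])
  have hF : ∀ x : Ω, F (Quotient.mk _ x) = Quotient.mk _ (a x) := fun x => rfl
  let F' : Function.End Q := F
  have hF2 : F' ^ 2 ^ 1 = 1 := by
    funext u
    induction u using Quotient.inductionOn with
    | h x =>
      have : (F' ^ 2 ^ 1) (Quotient.mk _ x) = F (F (Quotient.mk _ x)) := rfl
      rw [this, hF, hF, (ha x).2]
      rfl
  haveI : Fintype Q := Fintype.ofFinite Q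
  have heven : 2 ∣ Fintype.card Q := by
    have h1 := Equiv.Perm.card_fixedPoints_modEq (f := F') (p := 2) (n := 1) hF2
    have h2 : IsEmpty (Function.fixedPoints F') := by
      constructor
      rintro ⟨u, hu⟩
      induction u using Quotient.inductionOn with
      | h x =>
        have h3 : F (Quotient.mk _ x) = Quotient.mk _ x := hu
        rw [hF] at h3
        obtain ⟨k, hk⟩ := (hrel _ _).1 (Quotient.exact h3)
        exact key k x hk.symm
    rw [Fintype.card_eq_zero_iff.2 h2] at h1
    exact (Nat.modEq_zero_iff_dvd).1 h1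
  have hcard : Fintype.card Ω = Fintype.card Q * r := by
    rw [Fintype.card_congr (MulAction.selfEquivSigmaOrbits (Subgroup.zpowers g) Ω),
      Fintype.card_sigma]
    have h1 : ∀ u : Q, Fintype.card (MulAction.orbit (Subgroup.zpowers g) u.out) = r := by
      intro u
      rw [← MulAction.minimalPeriod_eq_card]
      have := h u.out
      rw [← hg] at this
      exact this
    rw [Finset.sum_congr rfl fun u _ => h1 u, Finset.sum_const, Finset.card_univ, smul_eq_mul]
  rw [hcard]
  exact Nat.mul_dvd_mul_right heven r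

end MPbcd198.P
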