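import Pool.Agent.Lib.MP_bcd198_co.P.TypeA
import Pool.Agent.Lib.MP_bcd198_co.P.RelCard

/-!
# JOB P.Card: the numbers attached to a planted type

PROVE the theorems below (keep the statements; add private lemmas as you like).  `τ` is a planted
type on the finite set `Y`, `S = τ.S`.  You may use everything of `P/Basic.lean`, `P/TypeA.lean`
and the theorem `two_mul_dvd_card : IsPM a → IsPM b → Rel r a b → 2 * r ∣ Fintype.card Ω` of
`P/RelCard.lean` (its proof is another job).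

* `dvd_S : 2 * p ∣ τ.S.card`: apply `two_mul_dvd_card` to `aS τ`, `bS τ` on `SS τ`
  (`isPM_aS`, `isPM_bS`, `rel_aS_bS`), `Fintype.card_coe`.
* `dvd_Y : 2 * q ∣ Fintype.card Y`: apply it to `τ.b`, `τ.c`, `τ.bc`.
* `card_P1 : Fintype.card (P1 τ) = τ.bdCard`: `bdCard = (S.filter (c x ∉ S)).card`, and `c` is a
  bijection from `{y // y ∉ S ∧ c y ∈ S}` to `{x ∈ S : c x ∉ S}` (`cc`).  (`bdCard` uses the
  classical decidability instance.)
* `card_add : τ.S.card + Fintype.card (P1 τ ⊕ P2 τ) = Fintype.card Y`: by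
  `Fintype.card_congr (e0 τ)` the second summand is the number of `y ∉ S`
  (`Fintype.card_subtype_compl`, `Fintype.card_coe` …).
* `dvd_four : 4 ∣ τ.S.card + τ.bdCard`.  Let `S_c = {x ∈ S : c x ∈ S}`, so that
  `|S| = |S_c| + bdCard` (`Finset.card_filter_add_card_filter_not` or similar).  `a` and `c`
  preserve `S_c`: for `x ∈ S_c`, `a x ∈ S` and `c (a x) = a (c x) ∈ S` (`τ.ac_in`, `a_mem`);
  `c x ∈ S` and `c (c x) = x ∈ S`.  On the subtype `S_c` the restrictions are fixed point free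
  involutions satisfying `Rel 2` by `rel_two_iff` (`τ.ac_ne`, `τ.ac_in`).  So `4 ∣ |S_c|` by
  `two_mul_dvd_card` with `r = 2`.  `|S|` is even by `dvd_S` (`2 * p ∣ |S|`), so
  `bdCard = |S| - |S_c|` is even, and `|S| + bdCard = |S_c| + 2 * bdCard` is divisible by `4`.
* `bd_le : τ.bdCard ≤ τ.S.card`: `Finset.card_filter_le`.
* `S_le : τ.S.card ≤ Fintype.card Y`: `Finset.card_le_univ`.
* `card_P2 : 2 * τ.S.card + ...` not needed; instead `card_P2_eq : τ.S.card + τ.bdCard +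
  Fintype.card (P2 τ) = Fintype.card Y` (from `card_add`, `card_P1`, `Fintype.card_sum`).
-/

set_option autoImplicit false
set_option linter.unusedSectionVars false

namespace MPbcd198.P

open Equiv

variable {p q : ℕ} {Y : Type} [Fintype Y] [DecidableEq Y]

theorem dvd_S (τ : PType p q Y) : 2 * p ∣ τ.S.card := by
  have h := two_mul_dvd_card (isPM_aS τ) (isPM_bS τ) (rel_aS_bS τ)
  rwa [Fintype.card_coe] at h

theorem dvd_Y (τ : PType p q Y) : 2 * q ∣ Fintype.card Y :=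
  two_mul_dvd_card τ.pb τ.pc τ.bc

private theorem Card_bd (τ : PType p q Y) : τ.bdCard = (τ.S.filter fun x => τ.c x ∉ τ.S).card := by
  unfold PType.bdCard
  congr 1
  ext x
  simp only [Finset.mem_filter]

theorem card_P1 (τ : PType p q Y) : Fintype.card (P1 τ) = τ.bdCard := by
  rw [Card_bd, ← Fintype.card_coe]
  refine Fintype.card_congr ⟨fun y => ⟨τ.c y.1, ?_⟩, fun y => ⟨τ.c y.1, ?_⟩, ?_, ?_⟩
  · rw [Finset.mem_filter, cc]
    exact ⟨y.2.2, y.2.1⟩
  · have h := Finset.mem_filter.1 y.2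
    rw [cc]
    exact ⟨h.2, h.1⟩
  · intro y
    exact Subtype.ext (cc τ y.1)
  · intro y
    exact Subtype.ext (cc τ y.1)

theorem card_add (τ : PType p q Y) :
    τ.S.card + Fintype.card (P1 τ ⊕ P2 τ) = Fintype.card Y := by
  rw [Fintype.card_congr (e0 τ), Fintype.card_subtype_compl, Fintype.card_coe]
  exact Nat.add_sub_cancel' (Finset.card_le_univ _)

theorem card_P2_eq (τ : PType p q Y) :
    τ.S.card + τ.bdCard + Fintype.card (P2 τ) = Fintype.card Y := by
  rw [← card_add τ, Fintype.card_sum, card_P1, add_assoc]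

private theorem Card_cmem (τ : PType p q Y) {x : Y} (h : x ∈ τ.S ∧ τ.c x ∈ τ.S) :
    τ.c x ∈ τ.S ∧ τ.c (τ.c x) ∈ τ.S := ⟨h.2, by rw [cc]; exact h.1⟩

private theorem Card_amem (τ : PType p q Y) {x : Y} (h : x ∈ τ.S ∧ τ.c x ∈ τ.S) :
    τ.a x ∈ τ.S ∧ τ.c (τ.a x) ∈ τ.S :=
  ⟨a_mem τ h.1, by rw [τ.ac_in x h.1 h.2]; exact a_mem τ h.2⟩

theorem dvd_four (τ : PType p q Y) : 4 ∣ τ.S.card + τ.bdCard := by
  classical
  let T : Type := {x : Y // x ∈ τ.S ∧ τ.c x ∈ τ.S}
  let a' : Perm T :=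
    { toFun := fun x => ⟨τ.a x.1, Card_amem τ x.2⟩
      invFun := fun x => ⟨τ.a x.1, Card_amem τ x.2⟩
      left_inv := fun x => Subtype.ext (τ.a_inv x.1)
      right_inv := fun x => Subtype.ext (τ.a_inv x.1) }
  let c' : Perm T :=
    { toFun := fun x => ⟨τ.c x.1, Card_cmem τ x.2⟩
      invFun := fun x => ⟨τ.c x.1, Card_cmem τ x.2⟩
      left_inv := fun x => Subtype.ext (cc τ x.1)
      right_inv := fun x => Subtype.ext (cc τ x.1) }
  have ha : IsPM a' := fun x =>
    ⟨fun h => a_ne τ x.2.1 (congrArg Subtype.val h), Subtype.ext (τ.a_inv x.1)⟩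
  have hc : IsPM c' := fun x =>
    ⟨fun h => (τ.pc x.1).1 (congrArg Subtype.val h), Subtype.ext (cc τ x.1)⟩
  have hrel : Rel 2 a' c' := by
    rw [rel_two_iff ha hc]
    intro x
    exact ⟨fun h => τ.ac_ne x.1 x.2.1 x.2.2 (congrArg Subtype.val h),
      Subtype.ext (τ.ac_in x.1 x.2.1 x.2.2)⟩
  have h4 : 2 * 2 ∣ Fintype.card T := two_mul_dvd_card ha hc hrel
  have hT : Fintype.card T = (τ.S.filter fun x => τ.c x ∈ τ.S).card := by
    rw [← Fintype.card_coe]
    refine Fintype.card_congr (Equiv.subtypeEquivRight fun x => ?_)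
    rw [Finset.mem_filter]
  have hS : (τ.S.filter fun x => τ.c x ∈ τ.S).card + τ.bdCard = τ.S.card := by
    rw [Card_bd]
    exact Finset.card_filter_add_card_filter_not (s := τ.S) (fun x => τ.c x ∈ τ.S)
  rw [hT] at h4
  have h2 : 2 ∣ τ.S.card := (Dvd.intro _ rfl).trans (dvd_S τ)
  obtain ⟨u, hu⟩ := h4
  obtain ⟨v, hv⟩ := h2
  omega

theorem bd_le (τ : PType p q Y) : τ.bdCard ≤ τ.S.card := by
  rw [Card_bd]
  exact Finset.card_filter_le _ _

theorem S_le (τ : PType p q Y) : τ.S.card ≤ Fintype.card Y := Finset.card_le_univ _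

end MPbcd198.P
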