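import Pool.Agent.Lib.MP_bcd198_co.P.TypeA

/-!
# JOB P.Embed: counting pairs (map, planted copy)

PROVE the two theorems below (keep the statements; add private lemmas).  Read `P/Basic.lean`
(`isPM_permCongr`, `rel_permCongr`) and the definitions `Compat`, `embCount` in `P/TypeA.lean`,
`IsMap`, `MapOn`, `Trip` in `Defs.lean`.

`embCount_eq`: let `N + 2 z = 2 m`.  `embCount τ m` counts the pairs `(M, ι)`, `M` a map on
`Fin (2 m)` and `ι : Fin N ↪ Fin (2 m)`, with `ι (b y) = B (ι y)`, `ι (c y) = C (ι y)` for all `y`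
and `ι (a y) = A (ι y)` for `y ∈ S` (`M = (A,B,C)`).
 (1) Regroup by `ι`: the type is equivalent to `Σ ι : (Fin N ↪ Fin (2 m)), {M : Trip (Fin (2 m)) //
 IsMap p q M.1 M.2.1 M.2.2 ∧ (∀ y, ι (b y) = M.2.1 (ι y)) ∧ …}` (explicit equivalence), and
 `Nat.card_sigma` (all types are finite) gives `embCount τ m = ∑ ι, Nat.card (fiber ι)`.
 (2) For each `ι` there is `e : Fin N ⊕ Fin (2 z) ≃ Fin (2 m)` with `e (inl y) = ι y` for all `y`:
 `Equiv.ofInjective ι`, and the complement of the range of `ι` has `2 m - N = 2 z` elements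
 (`Fintype.card_compl_set`, `Set.card_range_of_injective`, `Fintype.equivFinOfCardEq`), and
 `Equiv.Set.sumCompl (Set.range ι)`.
 (3) Conjugation by `e`, `M ↦ (e.permCongr M.1, e.permCongr M.2.1, e.permCongr M.2.2)`, is a
 bijection from `{M : Trip (Fin N ⊕ Fin (2 z)) // Compat τ (Fin (2 z)) M}` to the fiber of `ι`:
 `IsPM`, `Rel` are preserved (`isPM_permCongr`, `rel_permCongr`), and
 `e.permCongr B (ι y) = e (B (e.symm (e (inl y)))) = e (B (inl y))`, which equals `ι (b y) =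
 e (inl (b y))` iff `B (inl y) = inl (b y)` (`e.injective`).  Same for `C` and `A`.
 (4) So `embCount τ m = ∑ ι, K = card (Fin N ↪ Fin (2 m)) * K = (2 * m).descFactorial N * K`
 (`Fintype.card_embedding_eq`, `Fintype.card_fin`, `Finset.sum_const`, `Finset.card_univ`).

`embCount_eq_zero`: if `2 m < N` there is no embedding `Fin N ↪ Fin (2 m)`
(`Fintype.card_le_of_embedding`), so the type is empty (`Nat.card_eq_zero`).

`embCount_eq_zero_of_NMap`: if there is no map on `Fin (2 m)` (`NMap p q m = 0`; the type `MapOn` is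
finite, so it is empty: `Nat.card_eq_zero`, `Finite.card_eq_zero_iff`) then the type of pairs is
empty.
-/

set_option autoImplicit false
set_option linter.unusedSectionVars false

namespace MPbcd198.P

open Equiv

/-- an embedding extends to an equivalence from the sum with the complement -/
theorem exists_ext {N m z : ℕ} (ι : Fin N ↪ Fin (2 * m)) (h : N + 2 * z = 2 * m) :
    ∃ e : Fin N ⊕ Fin (2 * z) ≃ Fin (2 * m), ∀ y, e (Sum.inl y) = ι y := by
  classical
  have hc : Fintype.card ↥(Set.range ι)ᶜ = 2 * z := by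
    rw [Fintype.card_compl_set, Set.card_range_of_injective ι.injective, Fintype.card_fin,
      Fintype.card_fin]
    omega
  refine ⟨(Equiv.sumCongr (Equiv.ofInjective ι ι.injective)
    (Fintype.equivFinOfCardEq hc).symm).trans (Equiv.Set.sumCompl (Set.range ι)), fun y => ?_⟩
  simp

/-- the maps compatible with a fixed embedding -/
def Fib {p q N : ℕ} (τ : PType p q (Fin N)) (m : ℕ) (ι : Fin N ↪ Fin (2 * m)) : Type :=
  {M : Trip (Fin (2 * m)) // IsMap p q M.1 M.2.1 M.2.2 ∧ (∀ y, ι (τ.b y) = M.2.1 (ι y)) ∧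
    (∀ y, ι (τ.c y) = M.2.2 (ι y)) ∧ ∀ y ∈ τ.S, ι (τ.a y) = M.1 (ι y)}

/-- regroup by the embedding -/
def regroup {p q N : ℕ} (τ : PType p q (Fin N)) (m : ℕ) :
    {x : MapOn p q (Fin (2 * m)) × (Fin N ↪ Fin (2 * m)) //
      (∀ y, x.2 (τ.b y) = x.1.1.2.1 (x.2 y)) ∧ (∀ y, x.2 (τ.c y) = x.1.1.2.2 (x.2 y)) ∧
        ∀ y ∈ τ.S, x.2 (τ.a y) = x.1.1.1 (x.2 y)} ≃
      Σ ι : (Fin N ↪ Fin (2 * m)), Fib τ m ι where
  toFun x := ⟨x.1.2, ⟨x.1.1.1, x.1.1.2, x.2⟩⟩
  invFun y := ⟨(⟨y.2.1, y.2.2.1⟩, y.1), y.2.2.2⟩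
  left_inv _ := rfl
  right_inv _ := rfl

theorem isMap_permCongr {p q : ℕ} {α β : Type} (e : α ≃ β) (M : Trip α) :
    IsMap p q (e.permCongr M.1) (e.permCongr M.2.1) (e.permCongr M.2.2) ↔
      IsMap p q M.1 M.2.1 M.2.2 := by
  constructor
  · intro h
    exact ⟨(isPM_permCongr e).1 h.pa, (isPM_permCongr e).1 h.pb, (isPM_permCongr e).1 h.pc,
      (rel_permCongr e).1 h.ab, (rel_permCongr e).1 h.bc, (rel_permCongr e).1 h.ac⟩
  · intro h
    exact ⟨(isPM_permCongr e).2 h.pa, (isPM_permCongr e).2 h.pb, (isPM_permCongr e).2 h.pc,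
      (rel_permCongr e).2 h.ab, (rel_permCongr e).2 h.bc, (rel_permCongr e).2 h.ac⟩

theorem card_fib {p q N : ℕ} (τ : PType p q (Fin N)) (m z : ℕ) (h : N + 2 * z = 2 * m)
    (ι : Fin N ↪ Fin (2 * m)) :
    Nat.card (Fib τ m ι) =
      Nat.card {M : Trip (Fin N ⊕ Fin (2 * z)) // Compat τ (Fin (2 * z)) M} := by
  obtain ⟨e, he⟩ := exists_ext ι h
  symm
  apply Nat.card_congr
  refine Equiv.subtypeEquiv
    (Equiv.prodCongr e.permCongr (Equiv.prodCongr e.permCongr e.permCongr)) ?_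
  intro M
  have hk : ∀ (A : Perm (Fin N ⊕ Fin (2 * z))) (y y' : Fin N),
      ι y' = e.permCongr A (ι y) ↔ A (Sum.inl y) = Sum.inl y' := by
    intro A y y'
    rw [← he, ← he, Equiv.permCongr_apply, Equiv.symm_apply_apply, e.apply_eq_iff_eq]
    exact eq_comm
  show Compat τ (Fin (2 * z)) M ↔ IsMap p q (e.permCongr M.1) (e.permCongr M.2.1)
    (e.permCongr M.2.2) ∧ (∀ y, ι (τ.b y) = e.permCongr M.2.1 (ι y)) ∧
      (∀ y, ι (τ.c y) = e.permCongr M.2.2 (ι y)) ∧ ∀ y ∈ τ.S, ι (τ.a y) = e.permCongr M.1 (ι y)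
  simp only [hk, isMap_permCongr]
  rfl

theorem embCount_eq {p q N : ℕ} (τ : PType p q (Fin N)) (m z : ℕ) (h : N + 2 * z = 2 * m) :
    embCount τ m = (2 * m).descFactorial N *
      Nat.card {M : Trip (Fin N ⊕ Fin (2 * z)) // Compat τ (Fin (2 * z)) M} := by
  classical
  haveI : ∀ ι : (Fin N ↪ Fin (2 * m)), Finite (Fib τ m ι) := fun ι => by
    unfold Fib; infer_instance
  rw [embCount, Nat.card_congr (regroup τ m), Nat.card_sigma,
    Finset.sum_congr rfl fun ι _ => card_fib τ m z h ι, Finset.sum_const, Finset.card_univ,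
    Fintype.card_embedding_eq, Fintype.card_fin, Fintype.card_fin, smul_eq_mul]

theorem embCount_eq_zero {p q N : ℕ} (τ : PType p q (Fin N)) (m : ℕ) (h : 2 * m < N) :
    embCount τ m = 0 := by
  rw [embCount]
  haveI : IsEmpty (Fin N ↪ Fin (2 * m)) := by
    constructor
    intro ι
    have := Fintype.card_le_of_embedding ι
    rw [Fintype.card_fin, Fintype.card_fin] at this
    omega
  exact Nat.card_of_isEmpty

theorem embCount_eq_zero_of_NMap {p q N : ℕ} (τ : PType p q (Fin N)) (m : ℕ)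
    (h : NMap p q m = 0) : embCount τ m = 0 := by
  rw [embCount]
  haveI : IsEmpty (MapOn p q (Fin (2 * m))) := Finite.card_eq_zero_iff.1 h
  exact Nat.card_of_isEmpty

end MPbcd198.P
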