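import Pool.Agent.Lib.MP_bcd198_co.P.TypeA

/-!
# JOB P.Glue2: the relation `Rel 2` for the glued triple

PROVE `rel2_iff` below (keep the statement; add private lemmas).  Read `P/Basic.lean`
(`rel_two_iff`, `isPM_permCongr`, `isPM_sumCongr`) and `P/TypeA.lean` (`PhiA_S`, `PhiA_1`,
`PhiA_2`, `E_2`, `E_Z`, `cc`, `a_mem`).

PROOF.  Let `A = PhiA τ a'`, `C = sumCongr τ.c c''` on `Y ⊕ Z` and `C' = sumCongr (cP τ) c''` on
`P2 τ ⊕ Z`.  All are fixed point free involutions (`A`: `isPM_permCongr`, `isPM_sumCongr`,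
`isPM_aS`, `isPM_aD`, `ha`; `combA` is `sumCongr` by definition).  By `rel_two_iff`,
`Rel 2 A C ↔ ∀ x, A x ≠ C x ∧ C (A x) = A (C x)` and the same for `a'`, `C'`.
We prove that the pointwise condition at `x : Y ⊕ Z` always holds for `x = inl y` with `y ∈ S` or
`c y ∈ S`, and that at `x = j u := E (inr (inr u))`, `u : P2 τ ⊕ Z`, it is equivalent to the
condition for `a'`, `C'` at `u`.  Every `x : Y ⊕ Z` is of one of these two forms (`x = inr z` is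
`j (inr z)`; `x = inl y` with `y ∉ S`, `c y ∉ S` is `j (inl ⟨y, _, _⟩)`; `E_2`, `E_Z`).
* `y ∈ S`, `c y ∈ S`: `A (inl y) = inl (a y)` (`PhiA_S`), `C (inl y) = inl (c y)`,
  `A (C (inl y)) = inl (a (c y))` (`PhiA_S`, `c y ∈ S`), `C (A (inl y)) = inl (c (a y))`; use
  `τ.ac_ne`, `τ.ac_in`.
* `y ∈ S`, `c y ∉ S`: `A (inl y) = inl (a y)` with `a y ∈ S`, so `≠ inl (c y)`.
  `A (C (inl y)) = A (inl (c y)) = inl (c (a (c (c y)))) = inl (c (a y)) = C (A (inl y))`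
  (`PhiA_1` for `c y`: `c y ∉ S`, `c (c y) = y ∈ S`).
* `y ∉ S`, `c y ∈ S`: `A (inl y) = inl (c (a (c y)))` (`PhiA_1`) which is not in `S` by
  `τ.ac_out (c y)` while `c y ∈ S`, so `A (inl y) ≠ C (inl y)`;
  `C (A (inl y)) = inl (a (c y)) = A (inl (c y)) = A (C (inl y))` (`PhiA_S`).
* `x = j u`: `A (j u) = j (a' u)` (`PhiA_2`) and `C (j u) = j (C' u)` (cases on `u`: `E_2`, `E_Z`,
  `cP_val`).  `j` is injective.  So the condition at `j u` is `j (a' u) ≠ j (C' u)` and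
  `j (C' (a' u)) = j (a' (C' u))`.
-/

set_option autoImplicit false
set_option linter.unusedSectionVars false

namespace MPbcd198.P

open Equiv

variable {p q : ℕ} {Y : Type} [DecidableEq Y] {Z : Type}

theorem rel2_iff (τ : PType p q Y) (a' : Perm (P2 τ ⊕ Z)) (c'' : Perm Z) (ha : IsPM a')
    (hc : IsPM c'') :
    Rel 2 (PhiA τ a') (Equiv.sumCongr τ.c c'') ↔ Rel 2 a' (Equiv.sumCongr (cP τ) c'') := by
  have hA : IsPM (PhiA τ a') :=
    (isPM_permCongr _).2 (isPM_sumCongr.2 ⟨isPM_aS τ, isPM_sumCongr.2 ⟨isPM_aD τ, ha⟩⟩)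
  have hC : IsPM (Equiv.sumCongr τ.c c'') := isPM_sumCongr.2 ⟨τ.pc, hc⟩
  have hC' : IsPM (Equiv.sumCongr (cP τ) c'') := isPM_sumCongr.2 ⟨isPM_cP τ, hc⟩
  have hCy : ∀ y : Y, Equiv.sumCongr τ.c c'' (Sum.inl y) = Sum.inl (τ.c y) := fun y => rfl
  have hj : ∀ u : P2 τ ⊕ Z, Equiv.sumCongr τ.c c'' (E τ Z (Sum.inr (Sum.inr u))) =
      E τ Z (Sum.inr (Sum.inr (Equiv.sumCongr (cP τ) c'' u))) := by
    rintro (u | u) <;> rfl
  have hinj : Function.Injective (fun u : P2 τ ⊕ Z => E τ Z (Sum.inr (Sum.inr u))) :=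
    (E τ Z).injective.comp (Sum.inr_injective.comp Sum.inr_injective)
  rw [rel_two_iff hA hC, rel_two_iff ha hC']
  constructor
  · intro h u
    obtain ⟨h1, h2⟩ := h (E τ Z (Sum.inr (Sum.inr u)))
    rw [PhiA_2, hj] at h1 h2
    rw [hj, PhiA_2] at h2
    exact ⟨fun h3 => h1 (by rw [h3]), hinj h2⟩
  · intro h x
    have hcase : (∃ y : Y, x = Sum.inl y ∧ (y ∈ τ.S ∨ τ.c y ∈ τ.S)) ∨
        ∃ u : P2 τ ⊕ Z, x = E τ Z (Sum.inr (Sum.inr u)) := by
      rcases x with y | z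
      · by_cases hy : y ∈ τ.S
        · exact Or.inl ⟨y, rfl, Or.inl hy⟩
        · by_cases hy' : τ.c y ∈ τ.S
          · exact Or.inl ⟨y, rfl, Or.inr hy'⟩
          · exact Or.inr ⟨Sum.inl ⟨y, hy, hy'⟩, rfl⟩
      · exact Or.inr ⟨Sum.inr z, rfl⟩
    rcases hcase with ⟨y, rfl, hy⟩ | ⟨u, rfl⟩
    · by_cases hyS : y ∈ τ.S
      · rw [PhiA_S τ a' hyS, hCy, hCy]
        by_cases hcS : τ.c y ∈ τ.S
        · rw [PhiA_S τ a' hcS]
          exact ⟨fun h3 => τ.ac_ne y hyS hcS (Sum.inl_injective h3),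
            congrArg Sum.inl (τ.ac_in y hyS hcS)⟩
        · rw [PhiA_1 τ a' hcS (by rw [cc]; exact hyS), cc]
          refine ⟨fun h3 => hcS ?_, rfl⟩
          rw [← Sum.inl_injective h3]
          exact a_mem τ hyS
      · have hcS : τ.c y ∈ τ.S := hy.resolve_left hyS
        rw [PhiA_1 τ a' hyS hcS, hCy, hCy, PhiA_S τ a' hcS, cc]
        refine ⟨fun h3 => ?_, rfl⟩
        have h4 := (aD_aux τ ⟨hyS, hcS⟩).1
        rw [Sum.inl_injective h3] at h4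
        exact h4 hcS
    · obtain ⟨h1, h2⟩ := h u
      rw [PhiA_2, hj, hj, PhiA_2]
      exact ⟨fun h3 => h1 (hinj h3), by rw [h2]⟩

end MPbcd198.P
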