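import Pool.Agent.Lib.MP_bcd198_co.P.TypeA

/-!
# JOB P.GlueS: `Phi` is injective and reaches every compatible map

PROVE the two theorems below (keep the statements; add private lemmas).  Read `P/Basic.lean`
(`exists_sumCongr`, `sumCongr_right_injective`, `rel_two_iff`) and `P/TypeA.lean`.

`Phi_injective`: from `Phi τ t = Phi τ t'` we get (second and third components)
`sumCongr τ.b t.2.1 = sumCongr τ.b t'.2.1` and the same for `c`, so `t.2 = t'.2` by
`sumCongr_right_injective`; and `(E τ Z).permCongr (sumCongr (aS τ) (combA (aD τ) t.1)) = …`, so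
by injectivity of `(E τ Z).permCongr` and twice `sumCongr_right_injective` (`combA (aD τ) a' =
sumCongr (aD τ) a'` by definition), `t.1 = t'.1`.

`exists_Phi`: let `Compat τ Z M`, `M = (A, B, C)`: `IsMap p q A B C`, `B (inl y) = inl (b y)`,
`C (inl y) = inl (c y)`, and `A (inl y) = inl (a y)` for `y ∈ S`.
 (1) `exists_sumCongr B τ.b` gives `B = sumCongr τ.b b''`, similarly `C = sumCongr τ.c c''`.
 (2) For `y ∉ S` with `c y ∈ S`: `A (inl y) = inl (c (a (c y)))`.  Indeed by `rel_two_iff`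
 (`IsPM A`, `IsPM C`, `Rel 2 A C`), `C (A x) = A (C x)` for all `x`.  Take `x = inl (c y)`:
 `A x = inl (a (c y))` as `c y ∈ S`, so `C (A x) = inl (c (a (c y)))`, and
 `A (C x) = A (inl (c (c y))) = A (inl y)` (`cc`).
 (3) Let `F := (E τ Z).symm.permCongr A : Perm (SS τ ⊕ (P1 τ ⊕ (P2 τ ⊕ Z)))`, so that
 `F x = E.symm (A (E x))`.  `F (inl s) = inl (aS τ s)` (since `A (inl s.1) = inl (a s.1) =
 E (inl (aS τ s))`), so by `exists_sumCongr`, `F = sumCongr (aS τ) k`; and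
 `F (inr (inl y)) = inr (inl (aD τ y))` by (2), so `k (inl y) = inl (aD τ y)` and
 `k = sumCongr (aD τ) a'` by `exists_sumCongr`.  Hence `A = (E τ Z).permCongr F = PhiA τ a'`
 (`Equiv.ext`; `permCongr_apply`).
 So `M = Phi τ (a', b'', c'')`.
-/

set_option autoImplicit false
set_option linter.unusedSectionVars false

namespace MPbcd198.P

open Equiv

variable {p q : ℕ} {Y : Type} [DecidableEq Y] {Z : Type}

theorem Phi_injective (τ : PType p q Y) :
    Function.Injective (Phi τ (Z := Z)) := by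
  rintro ⟨a', b'', c''⟩ ⟨a₁, b₁, c₁⟩ h
  have h1 : PhiA τ a' = PhiA τ a₁ := congrArg Prod.fst h
  have h2 : (Equiv.sumCongr τ.b b'' : Perm (Y ⊕ Z)) = Equiv.sumCongr τ.b b₁ :=
    congrArg (fun M : Trip (Y ⊕ Z) => M.2.1) h
  have h3 : (Equiv.sumCongr τ.c c'' : Perm (Y ⊕ Z)) = Equiv.sumCongr τ.c c₁ :=
    congrArg (fun M : Trip (Y ⊕ Z) => M.2.2) h
  have e2 : b'' = b₁ := sumCongr_right_injective τ.b h2
  have e3 : c'' = c₁ := sumCongr_right_injective τ.c h3
  have h4 : (Equiv.sumCongr (aS τ) (combA (aD τ) a') : Perm _) =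
      Equiv.sumCongr (aS τ) (combA (aD τ) a₁) := (E τ Z).permCongr.injective h1
  have h5 : combA (aD τ) a' = combA (aD τ) a₁ := sumCongr_right_injective (aS τ) h4
  have e1 : a' = a₁ := sumCongr_right_injective (aD τ) h5
  rw [e1, e2, e3]

theorem exists_Phi (τ : PType p q Y) (M : Trip (Y ⊕ Z)) (h : Compat τ Z M) :
    ∃ t : Perm (P2 τ ⊕ Z) × Perm Z × Perm Z, Phi τ t = M := by
  obtain ⟨A, B, C⟩ := M
  obtain ⟨hM, hB, hC, hA⟩ := h
  obtain ⟨b'', hb⟩ := exists_sumCongr B τ.b hB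
  obtain ⟨c'', hc⟩ := exists_sumCongr C τ.c hC
  have hAC := (rel_two_iff hM.pa hM.pc).1 hM.ac
  have hA1 : ∀ y, y ∉ τ.S → τ.c y ∈ τ.S → A (Sum.inl y) = Sum.inl (τ.c (τ.a (τ.c y))) := by
    intro y _ hy
    have h1 := (hAC (Sum.inl (τ.c y))).2
    have h2 : A (Sum.inl (τ.c y)) = Sum.inl (τ.a (τ.c y)) := hA _ hy
    have h3 : C (Sum.inl (τ.c y)) = Sum.inl (τ.c (τ.c y)) := hC _
    have h4 : C (Sum.inl (τ.a (τ.c y))) = Sum.inl (τ.c (τ.a (τ.c y))) := hC _
    simp only at h1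
    rw [h2, h3, h4, cc] at h1
    exact h1.symm
  obtain ⟨F, hF⟩ : ∃ F : Perm (SS τ ⊕ (P1 τ ⊕ (P2 τ ⊕ Z))), (E τ Z).permCongr F = A :=
    ⟨(E τ Z).permCongr.symm A, Equiv.apply_symm_apply _ _⟩
  have hFE : ∀ x, E τ Z (F x) = A (E τ Z x) := by
    intro x
    rw [← hF, Equiv.permCongr_apply, Equiv.symm_apply_apply]
  have hF1 : ∀ s, F (Sum.inl s) = Sum.inl (aS τ s) := by
    intro s
    apply (E τ Z).injective
    rw [hFE]
    exact hA _ s.2
  obtain ⟨k, hk⟩ := exists_sumCongr F (aS τ) hF1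
  have hk1 : ∀ y, k (Sum.inl y) = Sum.inl (aD τ y) := by
    intro y
    apply Sum.inr_injective (α := SS τ)
    apply (E τ Z).injective
    have h1 : F (Sum.inr (Sum.inl y)) = Sum.inr (k (Sum.inl y)) := by rw [hk]; rfl
    rw [← h1, hFE]
    exact hA1 _ y.2.1 y.2.2
  obtain ⟨a', ha'⟩ := exists_sumCongr k (aD τ) hk1
  refine ⟨(a', b'', c''), ?_⟩
  have hA' : PhiA τ a' = A := by
    rw [← hF, hk, ha']
    rfl
  rw [Phi, hA', hb, hc]

end MPbcd198.P
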