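import Pool.Agent.Lib.MP_bcd198_co.P.GlueP
import Pool.Agent.Lib.MP_bcd198_co.P.Glue2
import Pool.Agent.Lib.MP_bcd198_co.P.GlueS

/-!
# Stream P: the compatible maps on `Y ⊕ Z` are counted by `Ncomp`  (assembly)
-/

set_option autoImplicit false
set_option linter.unusedSectionVars false

namespace MPbcd198.P

open Equiv

variable {p q : ℕ} {Y : Type} [DecidableEq Y] {Z : Type}

theorem compat_Phi_iff (τ : PType p q Y) (t : Perm (P2 τ ⊕ Z) × Perm Z × Perm Z) :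
    Compat τ Z (Phi τ t) ↔ NCond p q (aD τ) (bP τ) (cP τ) t := by
  constructor
  · rintro ⟨hM, -, -, -⟩
    have h1 : IsPM t.1 := (isPM_PhiA τ t.1).1 hM.pa
    have h2 : IsPM t.2.1 := (isPM_sumCongr.1 hM.pb).2
    have h3 : IsPM t.2.2 := (isPM_sumCongr.1 hM.pc).2
    exact ⟨h1, h2, h3, (relp_iff τ t.1 t.2.1).1 hM.ab, (relq_iff τ t.2.1 t.2.2).1 hM.bc,
      (rel2_iff τ t.1 t.2.2 h1 h3).1 hM.ac⟩
  · rintro ⟨h1, h2, h3, h4, h5, h6⟩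
    refine ⟨⟨(isPM_PhiA τ t.1).2 h1, isPM_sumCongr.2 ⟨τ.pb, h2⟩, isPM_sumCongr.2 ⟨τ.pc, h3⟩,
      (relp_iff τ t.1 t.2.1).2 h4, (relq_iff τ t.2.1 t.2.2).2 h5,
      (rel2_iff τ t.1 t.2.2 h1 h3).2 h6⟩, fun y => rfl, fun y => rfl, fun y hy => ?_⟩
    exact PhiA_S τ t.1 hy

theorem card_compat (τ : PType p q Y) (Z : Type) :
    Nat.card {M : Trip (Y ⊕ Z) // Compat τ Z M} = Ncomp p q (aD τ) (bP τ) (cP τ) Z := by
  unfold Ncomp
  symm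
  apply Nat.card_congr
  refine Equiv.ofBijective
    (fun t : {t : Perm (P2 τ ⊕ Z) × Perm Z × Perm Z // NCond p q (aD τ) (bP τ) (cP τ) t} =>
      (⟨Phi τ t.1, (compat_Phi_iff τ t.1).2 t.2⟩ : {M : Trip (Y ⊕ Z) // Compat τ Z M})) ⟨?_, ?_⟩
  · intro t t' h
    exact Subtype.ext (Phi_injective τ (congrArg Subtype.val h))
  · rintro ⟨M, hM⟩
    obtain ⟨t, rfl⟩ := exists_Phi τ M hM
    exact ⟨⟨t, (compat_Phi_iff τ t).1 hM⟩, rfl⟩

end MPbcd198.P
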