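import Pool.Agent.Lib.MP_bcd198_co.P.TypeA

/-!
# JOB P.GlueP: `IsPM` and the relation `Rel p` for the glued triple

PROVE the theorems below (keep the statements; add private lemmas).  Read `P/Basic.lean` and
`P/TypeA.lean` (all definitions: `E`, `PhiA`, `Phi`, `aS`, `bS`, `aD`, `bP`, `cP`).

* `isPM_PhiA`: `PhiA τ a' = (E τ Z).permCongr (sumCongr (aS τ) (sumCongr (aD τ) a'))`
  (`combA` is `Equiv.sumCongr` by definition); use `isPM_permCongr`, `isPM_sumCongr`, `isPM_aS`,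
  `isPM_aD`.
* `sumCongr_b_eq`: the permutation `sumCongr τ.b b''` of `Y ⊕ Z` in the coordinates `E`:
  `sumCongr τ.b b'' = (E τ Z).permCongr (sumCongr (bS τ) (combB (bP τ) b''))`.
  Equivalently `sumCongr τ.b b'' (E x) = E (sumCongr (bS τ) (combB (bP τ) b'') x)` for all `x`
  (then `Equiv.ext` after writing the argument as `E x`, `(E τ Z).surjective`).  Cases:
  `x = inl s`: both are `inl (b s)`.  `x = inr (inl y)` with `y : P1 τ`: `E x = inl y.1`, and
  `combB (bP τ) b'' (inl y) = (sumAssoc) (sumCongr (bP τ) b'' (sumAssoc.symm (inl y)))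
  = sumAssoc (inl (bP τ (inl y)))`.  Note that for `w : P1 τ ⊕ P2 τ`,
  `E (inr (sumAssoc (inl w))) = inl (fl τ w)` (cases on `w`, `rfl`), and `fl (bP w) = b (fl w)`
  (`fl_bP`).  Similarly for `x = inr (inr (inl y))` with `w = inr y`.  `x = inr (inr (inr z))`:
  both are `inr (b'' z)`.
* `relp_iff`: by `sumCongr_b_eq`, `rel_permCongr`, `rel_sumCongr`, `rel_aS_bS`.
* `relq_iff`: `rel_sumCongr` and `τ.bc`.
-/

set_option autoImplicit false
set_option linter.unusedSectionVars false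

namespace MPbcd198.P

open Equiv

variable {p q : ℕ} {Y : Type} [DecidableEq Y] {Z : Type}

theorem isPM_PhiA (τ : PType p q Y) (a' : Perm (P2 τ ⊕ Z)) : IsPM (PhiA τ a') ↔ IsPM a' := by
  unfold PhiA combA
  rw [isPM_permCongr, isPM_sumCongr, isPM_sumCongr]
  exact ⟨fun h => h.2.2, fun h => ⟨isPM_aS τ, isPM_aD τ, h⟩⟩

private theorem gluep_E_fl (τ : PType p q Y) (w : P1 τ ⊕ P2 τ) :
    E τ Z (Sum.inr (Equiv.sumAssoc (P1 τ) (P2 τ) Z (Sum.inl w))) = Sum.inl (fl τ w) := by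
  rcases w with w | w <;> rfl

private theorem gluep_combB_inl (τ : PType p q Y) (b'' : Perm Z) (w : P1 τ ⊕ P2 τ) :
    combB (bP τ) b'' (Equiv.sumAssoc (P1 τ) (P2 τ) Z (Sum.inl w)) =
      Equiv.sumAssoc (P1 τ) (P2 τ) Z (Sum.inl (bP τ w)) := by
  unfold combB
  rw [Equiv.permCongr_apply, Equiv.symm_apply_apply]
  rfl

theorem sumCongr_b_eq (τ : PType p q Y) (b'' : Perm Z) :
    (Equiv.sumCongr τ.b b'' : Perm (Y ⊕ Z)) =
      (E τ Z).permCongr (Equiv.sumCongr (bS τ) (combB (bP τ) b'')) := by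
  apply Equiv.ext
  intro y
  obtain ⟨x, rfl⟩ := (E τ Z).surjective y
  rw [Equiv.permCongr_apply, Equiv.symm_apply_apply]
  rcases x with s | x
  · rfl
  · obtain ⟨w, rfl⟩ := (Equiv.sumAssoc (P1 τ) (P2 τ) Z).surjective x
    rcases w with w | z
    · rw [gluep_E_fl]
      have h1 : (Equiv.sumCongr (bS τ) (combB (bP τ) b'') : Perm _)
          (Sum.inr (Equiv.sumAssoc (P1 τ) (P2 τ) Z (Sum.inl w))) =
          Sum.inr (Equiv.sumAssoc (P1 τ) (P2 τ) Z (Sum.inl (bP τ w))) := by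
        rw [← gluep_combB_inl τ b'' w]
        rfl
      rw [h1, gluep_E_fl, fl_bP]
      rfl
    · rfl

theorem relp_iff (τ : PType p q Y) (a' : Perm (P2 τ ⊕ Z)) (b'' : Perm Z) :
    Rel p (PhiA τ a') (Equiv.sumCongr τ.b b'') ↔
      Rel p (combA (aD τ) a') (combB (bP τ) b'') := by
  rw [sumCongr_b_eq]
  unfold PhiA
  rw [rel_permCongr, rel_sumCongr]
  exact ⟨fun h => h.2, fun h => ⟨rel_aS_bS τ, h⟩⟩

theorem relq_iff (τ : PType p q Y) (b'' c'' : Perm Z) :
    Rel q (Equiv.sumCongr τ.b b'' : Perm (Y ⊕ Z)) (Equiv.sumCongr τ.c c'') ↔ Rel q b'' c'' := by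
  rw [rel_sumCongr]
  exact ⟨fun h => h.2, fun h => ⟨τ.bc, h⟩⟩

end MPbcd198.P
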