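import Pool.Agent.Lib.MP_bcd198_co.P.TypeA

/-!
# JOB P.Hull: the hull conditions of a planted type are those of Theorem Q

PROVE `hullWeak_transfer` and `hullStrict_transfer` below (keep the statements; add private lemmas).

PROOF.  `fl τ : P1 τ ⊕ P2 τ → Y` is the underlying flag (injective, `fl_injective`; image = the
complement of `S`, `fl_not_mem`, `exists_fl`; `fl_inl`, `fl_inr`, `fl_bP : fl (bP x) = b (fl x)`).
Let `U : Finset (P1 τ ⊕ P2 τ)` with `PClosed (aD τ) (bP τ) U` and
`U' := U.map ⟨fl τ, fl_injective τ⟩ : Finset Y`.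

(1) `τ.Closed U'`: for `x = fl u`, `u ∈ U`: `x ∉ S` (`fl_not_mem`); `b x = fl (bP u) ∈ U'`;
and if `c x ∈ S` then `u` must be `Sum.inl y` (an element `Sum.inr y` has `c y.1 ∉ S`, `y.2.2`) and
`c (a (c x)) = (aD τ y).1 = fl (Sum.inl (aD τ y)) ∈ U'` by the second part of `PClosed`.

(2) `τ.e U' = eP p (cP τ) U`.  Three cardinalities:
 `U'.card = U.card` (`Finset.card_map`);
 `{x ∈ U' : c x ∉ S}` is the image of `{u ∈ U : u.isRight = true}` under `fl`: for `u = Sum.inl y`
 we have `c y.1 ∈ S` and for `u = Sum.inr y`, `c y.1 ∉ S` (`Finset.filter_map`, `Finset.card_map`,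
 `Finset.filter_congr`);
 `{x ∈ U' : c x ∉ S ∧ c x ∈ U'}` is the image of `{u ∈ U : ∃ y, u = Sum.inr y ∧
 Sum.inr (cP τ y) ∈ U}`: for `u = Sum.inr y`, `c y.1 = (cP τ y).1 = fl (Sum.inr (cP τ y))`, and
 `fl v ∈ U' ↔ v ∈ U` by injectivity; for `u = Sum.inl y` both conditions fail.
The definitions `PType.e`, `eP` use `open Classical` instances: unfold and use `classical`,
`congr`/`convert` or `simp only` carefully; `Finset.card_bij`/`Finset.card_nbij` are alternatives.

(3) `hullWeak_transfer`: `eP = τ.e U' ≤ 0`.  `hullStrict_transfer`: `U'` is nonempty if `U` is.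
-/

set_option autoImplicit false
set_option linter.unusedSectionVars false

namespace MPbcd198.P

open Equiv

variable {p q : ℕ} {Y : Type} [Fintype Y] [DecidableEq Y]

private lemma Hull_card {α β : Type} (f : α ↪ β) (U : Finset α) (P : β → Prop) (Q : α → Prop)
    (dP : DecidablePred P) (dQ : DecidablePred Q) (h : ∀ u ∈ U, P (f u) ↔ Q u) :
    ((U.map f).filter P).card = (U.filter Q).card := by
  rw [Finset.filter_map, Finset.card_map]
  congr 1
  apply Finset.filter_congr
  intro u hu
  exact h u hu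

private lemma Hull_closed (τ : PType p q Y) (U : Finset (P1 τ ⊕ P2 τ))
    (hU : PClosed (aD τ) (bP τ) U) : τ.Closed (U.map ⟨fl τ, fl_injective τ⟩) := by
  refine ⟨?_, ?_, ?_⟩
  · intro x hx
    obtain ⟨u, _, rfl⟩ := Finset.mem_map.1 hx
    exact fl_not_mem τ u
  · intro x hx
    obtain ⟨u, hu, rfl⟩ := Finset.mem_map.1 hx
    exact Finset.mem_map.2 ⟨bP τ u, hU.1 u hu, fl_bP τ u⟩
  · intro x hx hc
    obtain ⟨u, hu, rfl⟩ := Finset.mem_map.1 hx
    rcases u with y | y
    · exact Finset.mem_map.2 ⟨Sum.inl (aD τ y), hU.2 y hu, rfl⟩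
    · exact absurd hc y.2.2

private lemma Hull_e (τ : PType p q Y) (U : Finset (P1 τ ⊕ P2 τ)) :
    τ.e (U.map ⟨fl τ, fl_injective τ⟩) = eP p (cP τ) U := by
  unfold PType.e eP
  rw [Finset.card_map]
  congr 1
  · congr 3
    refine Hull_card _ _ _ _ _ _ ?_
    rintro (y | y) _
    · constructor
      · intro h
        exact absurd y.2.2 h
      · intro h
        exact absurd h (by simp)
    · constructor
      · intro _
        rfl
      · intro _
        exact y.2.2
  · congr 2
    refine Hull_card _ _ _ _ _ _ ?_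
    rintro (y | y) _
    · constructor
      · rintro ⟨h, _⟩
        exact absurd y.2.2 h
      · rintro ⟨z, hz, _⟩
        exact absurd hz (by simp)
    · constructor
      · rintro ⟨_, h⟩
        refine ⟨y, rfl, ?_⟩
        obtain ⟨v, hv, hv2⟩ := Finset.mem_map.1 h
        have h2 : v = Sum.inr (cP τ y) := fl_injective τ hv2
        rw [← h2]
        exact hv
      · rintro ⟨z, hz, h⟩
        have h2 : y = z := Sum.inr_injective hz
        subst h2
        exact ⟨y.2.2, Finset.mem_map.2 ⟨Sum.inr (cP τ y), h, rfl⟩⟩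

theorem hullWeak_transfer (τ : PType p q Y) (h : τ.HullWeak) :
    ∀ U : Finset (P1 τ ⊕ P2 τ), PClosed (aD τ) (bP τ) U → eP p (cP τ) U ≤ 0 := by
  intro U hU
  rw [← Hull_e]
  exact h _ (Hull_closed τ U hU)

theorem hullStrict_transfer (τ : PType p q Y) (h : τ.HullStrict) :
    ∀ U : Finset (P1 τ ⊕ P2 τ), U.Nonempty → PClosed (aD τ) (bP τ) U → eP p (cP τ) U < 0 := by
  intro U hne hU
  rw [← Hull_e]
  exact h _ (hne.map) (Hull_closed τ U hU)

end MPbcd198.P
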