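import Pool.Agent.Lib.MP_bcd198_co.P.RelCard
import Pool.Agent.Lib.MP_bcd198_co.IfL

/-!
# JOB P.NMapQ: the number of maps, and Theorem Q for the empty data

PROVE the theorems below (keep the statements; add private lemmas).  Read `P/Basic.lean`,
`P/RelCard.lean` (`two_mul_dvd_card`, proved in another job), `IfL.lean` (`Qratio`,
`thmQ_strict`: may be used although its proof is a `sorry` there), `Defs.lean`, `Types.lean`.

* `NMap_zero`: if there is a map `(A,B,C)` on `Fin (2 m)` then `two_mul_dvd_card` gives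
  `2 p ∣ 2 m`, `2 q ∣ 2 m`, `2 * 2 ∣ 2 m` (`IsMap.ab`, `.bc`, `.ac`), so `p ∣ m`, `q ∣ m`,
  `2 ∣ m` (`Nat.mul_dvd_mul_iff_left`).  So if one of these fails, `MapOn p q (Fin (2 m))` is empty
  and `NMap p q m = 0`.

* `NMap_eq_Ncomp`: `Ncomp p q a b c (Fin (2 m))` for `P₁ = P₂ = Empty` (`a = 1`, `b = 1`, `c = 1`)
  is `Nat.card` of the triples `(a', b'', c'') : Perm (Empty ⊕ Z) × Perm Z × Perm Z`,
  `Z = Fin (2 m)`, with `IsPM`s, `Rel p (combA 1 a') (combB 1 b'')`, `Rel q b'' c''`,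
  `Rel 2 a' (sumCongr 1 c'')`.  Let `u : Empty ⊕ Z ≃ Z := Equiv.emptySum Empty Z` and map
  `(a', b'', c'') ↦ (u.permCongr a', b'', c'')`, a bijection onto `MapOn p q Z` (use
  `Nat.card_congr` with an explicit equivalence, or `Equiv.subtypeEquiv` of the equivalence
  `(u.permCongr).prodCongr (refl)`).  The conditions correspond:
  `u.permCongr (sumCongr 1 c'') = c''` (ext), so `Rel 2 a' (sumCongr 1 c'') ↔
  Rel 2 (u.permCongr a') c''` by `rel_permCongr`; and with
  `v : Empty ⊕ (Empty ⊕ Z) ≃ Z := (Equiv.emptySum Empty _).trans u`,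
  `v.permCongr (combA 1 a') = u.permCongr a'` and `v.permCongr (combB 1 b'') = b''` (ext; unfold
  `combA`, `combB`), so `Rel p (combA 1 a') (combB 1 b'') ↔ Rel p (u.permCongr a') b''`.
  `IsPM a' ↔ IsPM (u.permCongr a')` by `isPM_permCongr`.

* `NMap_asymp`: apply `thmQ_strict hyp` with `P₁ = P₂ = Empty`, `a = b = c = 1` (the `IsPM`
  conditions and the hull condition are vacuous: a nonempty `Finset (Empty ⊕ Empty)` has an
  element, impossible).  `Fintype.card (Empty ⊕ Empty) / 2 + z = z`, `Fintype.card Empty / 2 + z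
  = z`, so `Qratio p q 1 1 1 z = NMap p q z * MNum z / (sNum p z * sNum q z * sNum 2 z * MNum z)
  = NMap p q z / (sNum p z * sNum q z * sNum 2 z)`, as `MNum z > 0` (lemma `MNum_pos'`), and
  `|x / y - 1| ≤ ε` with `y > 0` gives `|x - y| ≤ ε * y`.  (`sNum_pos'`: positivity of all
  factors; `r > 0`.)
-/

set_option autoImplicit false
set_option linter.unusedSectionVars false

namespace MPbcd198.P

open Equiv

theorem MNum_pos' (m : ℕ) : 0 < MNum m := by
  unfold MNum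
  positivity

theorem sNum_pos' {r : ℕ} (hr : 0 < r) (m : ℕ) : 0 < sNum r m := by
  unfold sNum
  have : (0 : ℝ) < r := by exact_mod_cast hr
  positivity

theorem NMap_zero (p q m : ℕ) (hm : 0 < m) (h : ¬ (p ∣ m ∧ q ∣ m ∧ 2 ∣ m)) :
    NMap p q m = 0 := by
  have hE : IsEmpty (MapOn p q (Fin (2 * m))) := by
    constructor
    rintro ⟨⟨A, B, C⟩, hM⟩
    apply h
    have h1 := two_mul_dvd_card hM.pa hM.pb hM.ab
    have h2 := two_mul_dvd_card hM.pb hM.pc hM.bc
    have h3 := two_mul_dvd_card hM.pa hM.pc hM.ac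
    rw [Fintype.card_fin] at h1 h2 h3
    exact ⟨Nat.dvd_of_mul_dvd_mul_left two_pos h1, Nat.dvd_of_mul_dvd_mul_left two_pos h2,
      Nat.dvd_of_mul_dvd_mul_left two_pos h3⟩
  rw [NMap]
  exact Nat.card_of_isEmpty

theorem NMap_eq_Ncomp (p q m : ℕ) :
    Ncomp p q (1 : Perm Empty) (1 : Perm (Empty ⊕ Empty)) (1 : Perm Empty) (Fin (2 * m)) =
      NMap p q m := by
  unfold Ncomp NMap MapOn
  apply Nat.card_congr
  let u : Empty ⊕ Fin (2 * m) ≃ Fin (2 * m) := Equiv.emptySum Empty (Fin (2 * m))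
  let v : Empty ⊕ (Empty ⊕ Fin (2 * m)) ≃ Fin (2 * m) :=
    (Equiv.emptySum Empty (Empty ⊕ Fin (2 * m))).trans u
  have hc : ∀ c'' : Perm (Fin (2 * m)), u.permCongr (Equiv.sumCongr (1 : Perm Empty) c'') = c'' := by
    intro c''
    ext x
    rfl
  have ha : ∀ a' : Perm (Empty ⊕ Fin (2 * m)),
      v.permCongr (combA (1 : Perm Empty) a') = u.permCongr a' := by
    intro a'
    ext x
    rfl
  have hb : ∀ b'' : Perm (Fin (2 * m)),
      v.permCongr (combB (1 : Perm (Empty ⊕ Empty)) b'') = b'' := by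
    intro b''
    ext x
    rfl
  refine Equiv.subtypeEquiv (Equiv.prodCongr u.permCongr (Equiv.refl _)) ?_
  rintro ⟨a', b'', c''⟩
  show _ ↔ IsMap p q (u.permCongr a') b'' c''
  have e1 : IsPM a' ↔ IsPM (u.permCongr a') := (isPM_permCongr u).symm
  have e2 : Rel p (combA (1 : Perm Empty) a') (combB (1 : Perm (Empty ⊕ Empty)) b'') ↔
      Rel p (u.permCongr a') b'' := by
    rw [← rel_permCongr v, ha, hb]
  have e3 : Rel 2 a' (Equiv.sumCongr (1 : Perm Empty) c'') ↔ Rel 2 (u.permCongr a') c'' := by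
    rw [← rel_permCongr u, hc]
  constructor
  · rintro ⟨h1, h2, h3, h4, h5, h6⟩
    exact ⟨e1.1 h1, h2, h3, e2.1 h4, h5, e3.1 h6⟩
  · rintro ⟨h1, h2, h3, h4, h5, h6⟩
    exact ⟨e1.2 h1, h2, h3, e2.2 h4, h5, e3.2 h6⟩

theorem NMap_asymp {p q : ℕ} (hyp : Hyp p q) : ∀ ε : ℝ, 0 < ε → ∃ m₀ : ℕ, ∀ m : ℕ, m₀ ≤ m →
    p ∣ m → q ∣ m → 2 ∣ m →
      |(NMap p q m : ℝ) - sNum p m * sNum q m * sNum 2 m| ≤
        ε * (sNum p m * sNum q m * sNum 2 m) := by
  have hp : 0 < p := by have := hyp.hp; omega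
  have hq : 0 < q := by have := hyp.hq; omega
  intro ε hε
  obtain ⟨m₀, hm₀⟩ := thmQ_strict hyp (1 : Perm Empty) (1 : Perm (Empty ⊕ Empty))
    (1 : Perm Empty) (fun x => x.elim) (fun x => by rcases x with x | x <;> exact x.elim)
    (fun x => x.elim)
    (fun U hU _ => by obtain ⟨x, _⟩ := hU; rcases x with x | x <;> exact x.elim) ε hε
  refine ⟨m₀, fun m hm d1 d2 d3 => ?_⟩
  have c1 : Fintype.card (Empty ⊕ Empty) / 2 + m = m := by simp
  have c2 : Fintype.card Empty / 2 + m = m := by simp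
  have h := hm₀ m hm (by rw [c1]; exact d1) d2 (by rw [c2]; exact d3)
  rw [Qratio, c1, c2, NMap_eq_Ncomp] at h
  have p1 := sNum_pos' hp m
  have p2 := sNum_pos' hq m
  have p3 := sNum_pos' two_pos m
  have p4 := MNum_pos' m
  have p5 : 0 < sNum p m * sNum q m * sNum 2 m := mul_pos (mul_pos p1 p2) p3
  have h1 : (NMap p q m : ℝ) * MNum m / (sNum p m * sNum q m * sNum 2 m * MNum m) - 1 =
      ((NMap p q m : ℝ) - sNum p m * sNum q m * sNum 2 m) / (sNum p m * sNum q m * sNum 2 m) := by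
    rw [mul_div_mul_right _ _ p4.ne', sub_div, div_self p5.ne']
  rw [h1, abs_div, abs_of_pos p5, div_le_iff₀ p5] at h
  exact h

end MPbcd198.P
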