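import Pool.Agent.Lib.MP_bcd198_co.P.Card
import Pool.Agent.Lib.MP_bcd198_co.P.Hull
import Pool.Agent.Lib.MP_bcd198_co.P.Glue
import Pool.Agent.Lib.MP_bcd198_co.P.Embed
import Pool.Agent.Lib.MP_bcd198_co.P.NMapQ
import Pool.Agent.Lib.MP_bcd198_co.P.As2

/-!
# MP_bcd198_co, Stream P: Theorem P (weak and strict form) from Theorem Q  (assembly)

The statements of `IfP.lean`: `NMap_zero`, `NMap_asymp` (in `P/NMapQ.lean`), `embCount`
(in `P/TypeA.lean`), `thmP_weak`, `thmP_strict` (here).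
-/

set_option autoImplicit false
set_option linter.unusedSectionVars false

namespace MPbcd198.P

open Equiv Filter Asymptotics Topology

/-- the filter `m → ∞` along the admissible `m` -/
def lf (p q : ℕ) : Filter ℕ := atTop ⊓ 𝓟 {m | p ∣ m ∧ q ∣ m ∧ 2 ∣ m}

theorem eventually_lf {p q : ℕ} {P : ℕ → Prop} (h : ∀ᶠ m in lf p q, P m) :
    ∃ m₀ : ℕ, ∀ m : ℕ, m₀ ≤ m → p ∣ m → q ∣ m → 2 ∣ m → P m := by
  rw [lf, eventually_inf_principal, eventually_atTop] at h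
  obtain ⟨m₀, hm₀⟩ := h
  exact ⟨m₀, fun m hm h1 h2 h3 => hm₀ m hm ⟨h1, h2, h3⟩⟩

theorem of_forall_lf {p q : ℕ} {P : ℕ → Prop} (m₀ : ℕ)
    (h : ∀ m : ℕ, m₀ ≤ m → p ∣ m → q ∣ m → 2 ∣ m → P m) : ∀ᶠ m in lf p q, P m := by
  rw [lf, eventually_inf_principal, eventually_atTop]
  exact ⟨m₀, fun m hm h' => h m hm h'.1 h'.2.1 h'.2.2⟩

/-- the main factor -/
noncomputable def W {p q N : ℕ} (τ : PType p q (Fin N)) (m : ℕ) : ℝ :=
  ((2 * m).descFactorial N : ℝ) *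
    (sNum p (m - τ.S.card / 2) * sNum q (m - N / 2) * sNum 2 (m - (τ.S.card + τ.bdCard) / 2) *
      MNum (m - N / 2) / MNum (m - τ.S.card / 2))

/-- all the numerical facts -/
theorem num_facts {p q N : ℕ} (τ : PType p q (Fin N)) :
    2 * p ∣ τ.S.card ∧ 2 * q ∣ N ∧ 4 ∣ τ.S.card + τ.bdCard ∧ τ.bdCard ≤ τ.S.card ∧
      τ.S.card ≤ N ∧ τ.S.card + Fintype.card (P1 τ ⊕ P2 τ) = N ∧
      τ.S.card + τ.bdCard + Fintype.card (P2 τ) = N := by
  have h1 := dvd_S τ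
  have h2 := dvd_Y τ
  have h3 := dvd_four τ
  have h4 := bd_le τ
  have h5 := S_le τ
  have h6 := card_add τ
  have h7 := card_P2_eq τ
  rw [Fintype.card_fin] at h2 h5 h6 h7
  exact ⟨h1, h2, h3, h4, h5, h6, h7⟩

theorem shift_G {p q N : ℕ} (τ : PType p q (Fin N)) {m : ℕ} (hm : N ≤ 2 * m) :
    Fintype.card (P1 τ ⊕ P2 τ) / 2 + (m - N / 2) = m - τ.S.card / 2 := by
  obtain ⟨h1, h2, h3, h4, h5, h6, h7⟩ := num_facts τ
  have e1 : 2 ∣ τ.S.card := (Dvd.intro _ rfl).trans h1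
  have e2 : 2 ∣ N := (Dvd.intro _ rfl).trans h2
  omega

theorem shift_G2 {p q N : ℕ} (τ : PType p q (Fin N)) {m : ℕ} (hm : N ≤ 2 * m) :
    Fintype.card (P2 τ) / 2 + (m - N / 2) = m - (τ.S.card + τ.bdCard) / 2 := by
  obtain ⟨h1, h2, h3, h4, h5, h6, h7⟩ := num_facts τ
  have e1 : 2 ∣ τ.S.card := (Dvd.intro _ rfl).trans h1
  have e2 : 2 ∣ N := (Dvd.intro _ rfl).trans h2
  omega

theorem emb_eq {p q N : ℕ} (hp : 0 < p) (hq : 0 < q) (τ : PType p q (Fin N)) {m : ℕ}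
    (hm : N ≤ 2 * m) :
    (embCount τ m : ℝ) = W τ m * Qratio p q (aD τ) (bP τ) (cP τ) (m - N / 2) := by
  obtain ⟨h1, h2, h3, h4, h5, h6, h7⟩ := num_facts τ
  have e2 : 2 ∣ N := (Dvd.intro _ rfl).trans h2
  have hz : N + 2 * (m - N / 2) = 2 * m := by omega
  rw [embCount_eq τ m (m - N / 2) hz, card_compat, Qratio, shift_G τ hm, shift_G2 τ hm, W]
  have p1 := (sNum_pos' hp (m - τ.S.card / 2)).ne'
  have p2 := (sNum_pos' hq (m - N / 2)).ne'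
  have p3 := (sNum_pos' two_pos (m - (τ.S.card + τ.bdCard) / 2)).ne'
  have p4 := (MNum_pos' (m - N / 2)).ne'
  have p5 := (MNum_pos' (m - τ.S.card / 2)).ne'
  push_cast
  field_simp

theorem dvd_facts {p q N : ℕ} (τ : PType p q (Fin N)) {m : ℕ} (hm : N ≤ 2 * m) (d1 : p ∣ m)
    (d2 : q ∣ m) (d3 : 2 ∣ m) :
    p ∣ Fintype.card (P1 τ ⊕ P2 τ) / 2 + (m - N / 2) ∧ q ∣ m - N / 2 ∧
      2 ∣ Fintype.card (P2 τ) / 2 + (m - N / 2) := by
  rw [shift_G τ hm, shift_G2 τ hm]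
  obtain ⟨h1, h2, h3, h4, h5, h6, h7⟩ := num_facts τ
  refine ⟨Nat.dvd_sub d1 ?_, Nat.dvd_sub d2 ?_, Nat.dvd_sub d3 ?_⟩
  · obtain ⟨k, hk⟩ := h1
    rw [hk, mul_assoc, Nat.mul_div_cancel_left _ two_pos]
    exact Dvd.intro _ rfl
  · obtain ⟨k, hk⟩ := h2
    have : N / 2 = q * k := by
      rw [hk, mul_assoc, Nat.mul_div_cancel_left _ two_pos]
    rw [this]
    exact Dvd.intro _ rfl
  · omega

theorem chi_eq {p q N : ℕ} (τ : PType p q (Fin N)) :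
    τ.chi = (τ.S.card : ℝ) / (2 * p) + (N : ℝ) / (2 * q) - (τ.S.card : ℝ) / 4 -
      (τ.bdCard : ℝ) / 4 := by
  rw [PType.chi, Fintype.card_fin]

theorem W_equiv {p q N : ℕ} (hp : 0 < p) (hq : 0 < q) (τ : PType p q (Fin N)) :
    (fun m => W τ m) ~[lf p q]
      fun m : ℕ => (2 * m : ℝ) ^ τ.chi * (sNum p m * sNum q m * sNum 2 m) := by
  obtain ⟨h1, h2, h3, h4, h5, h6, h7⟩ := num_facts τ
  exact asym_comb hp hq h1 h2 h3 h4 h5 τ.chi (chi_eq τ)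

theorem NMap_equiv {p q : ℕ} (hyp : Hyp p q) :
    (fun m => (NMap p q m : ℝ)) ~[lf p q] fun m : ℕ => sNum p m * sNum q m * sNum 2 m := by
  have hp : 0 < p := by have := hyp.hp; omega
  have hq : 0 < q := by have := hyp.hq; omega
  rw [IsEquivalent, isLittleO_iff]
  intro c hc
  obtain ⟨m₀, hm₀⟩ := NMap_asymp hyp c hc
  refine of_forall_lf m₀ fun m hm d1 d2 d3 => ?_
  have h := hm₀ m hm d1 d2 d3
  have hpos : 0 ≤ sNum p m * sNum q m * sNum 2 m :=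
    (mul_pos (mul_pos (sNum_pos' hp m) (sNum_pos' hq m)) (sNum_pos' two_pos m)).le
  simp only [Pi.sub_apply, Real.norm_eq_abs]
  rwa [abs_of_nonneg hpos]

theorem tendsto_two_mul (p q : ℕ) : Tendsto (fun m : ℕ => m) (lf p q) atTop :=
  tendsto_id.mono_left inf_le_left

/-- the two zero cases -/
theorem zero_case {p q N : ℕ} (τ : PType p q (Fin N)) {m : ℕ} (hm : 0 < m)
    (h : ¬ (p ∣ m ∧ q ∣ m ∧ 2 ∣ m)) : NMap p q m = 0 ∧ embCount τ m = 0 := by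
  have h1 := NMap_zero p q m hm h
  exact ⟨h1, embCount_eq_zero_of_NMap τ m h1⟩

theorem W_nonneg {p q N : ℕ} (hp : 0 < p) (hq : 0 < q) (τ : PType p q (Fin N)) (m : ℕ) :
    0 ≤ W τ m := by
  have p1 := (sNum_pos' hp (m - τ.S.card / 2)).le
  have p2 := (sNum_pos' hq (m - N / 2)).le
  have p3 := (sNum_pos' two_pos (m - (τ.S.card + τ.bdCard) / 2)).le
  have p4 := (MNum_pos' (m - N / 2)).le
  have p5 := (MNum_pos' (m - τ.S.card / 2)).le
  unfold W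
  positivity

/-- upper bound from an asymptotic equivalence -/
theorem le_two_mul_of_equiv {l : Filter ℕ} {u v : ℕ → ℝ} (h : u ~[l] v) (hv : ∀ m, 0 ≤ v m) :
    ∀ᶠ m in l, u m ≤ 2 * v m := by
  have h1 := (isLittleO_iff.1 h) (one_pos : (0 : ℝ) < 1)
  filter_upwards [h1] with m hm
  simp only [Pi.sub_apply, Real.norm_eq_abs, one_mul] at hm
  rw [abs_of_nonneg (hv m)] at hm
  have := (abs_le.1 hm).2
  linarith

/-- lower bound from an asymptotic equivalence -/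
theorem ge_half_of_equiv {l : Filter ℕ} {u v : ℕ → ℝ} (h : u ~[l] v) (hv : ∀ m, 0 ≤ v m) :
    ∀ᶠ m in l, v m ≤ 2 * u m := by
  have h1 := (isLittleO_iff.1 h) (by norm_num : (0 : ℝ) < 1 / 2)
  filter_upwards [h1] with m hm
  simp only [Pi.sub_apply, Real.norm_eq_abs] at hm
  rw [abs_of_nonneg (hv m)] at hm
  have := (abs_le.1 hm).1
  linarith

/-- [7.3] Theorem P, weak hull condition -/
theorem thmP_weak {p q : ℕ} (hyp : Hyp p q) {N : ℕ} (τ : PType p q (Fin N)) (h : τ.HullWeak) :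
    ∃ C : ℝ, ∀ m : ℕ, 0 < m →
      (embCount τ m : ℝ) ≤ C * (2 * m : ℝ) ^ τ.chi * (NMap p q m : ℝ) := by
  have hp : 0 < p := by have := hyp.hp; omega
  have hq : 0 < q := by have := hyp.hq; omega
  obtain ⟨C, hC⟩ := thmQ_weak hyp (aD τ) (bP τ) (cP τ) (isPM_aD τ) (isPM_bP τ) (isPM_cP τ)
    (hullWeak_transfer τ h)
  have hs : ∀ m : ℕ, 0 ≤ sNum p m * sNum q m * sNum 2 m := fun m =>
    (mul_pos (mul_pos (sNum_pos' hp m) (sNum_pos' hq m)) (sNum_pos' two_pos m)).le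
  have hx : ∀ m : ℕ, 0 ≤ (2 * m : ℝ) ^ τ.chi := fun m => Real.rpow_nonneg (by positivity) _
  have hW := le_two_mul_of_equiv (W_equiv hp hq τ) (fun m => mul_nonneg (hx m) (hs m))
  have hN := ge_half_of_equiv (NMap_equiv hyp) hs
  obtain ⟨m₁, hm₁⟩ := eventually_lf (hW.and hN)
  let m₂ := m₁ + N
  let C₁ : ℝ := max C 0
  let C₂ : ℝ := ∑ m ∈ Finset.range m₂, (embCount τ m : ℝ) / (2 * m : ℝ) ^ τ.chi
  have hC₂ : 0 ≤ C₂ := Finset.sum_nonneg fun m _ => div_nonneg (Nat.cast_nonneg _) (hx m)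
  refine ⟨4 * C₁ + C₂, fun m hm => ?_⟩
  have hC₁ : 0 ≤ C₁ := le_max_right _ _
  by_cases hd : p ∣ m ∧ q ∣ m ∧ 2 ∣ m
  swap
  · obtain ⟨z1, z2⟩ := zero_case τ hm hd
    rw [z1, z2]; simp
  by_cases hN0 : NMap p q m = 0
  · rw [embCount_eq_zero_of_NMap τ m hN0, hN0]; simp
  have hN1 : (1 : ℝ) ≤ (NMap p q m : ℝ) := by
    exact_mod_cast Nat.one_le_iff_ne_zero.2 hN0
  have hxpos : 0 < (2 * m : ℝ) ^ τ.chi := Real.rpow_pos_of_pos (by positivity) _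
  rcases lt_or_ge m m₂ with hlt | hge
  · have h1 : (embCount τ m : ℝ) / (2 * m : ℝ) ^ τ.chi ≤ C₂ :=
      Finset.single_le_sum (f := fun m : ℕ => (embCount τ m : ℝ) / (2 * m : ℝ) ^ τ.chi)
        (fun m _ => div_nonneg (Nat.cast_nonneg _) (hx m)) (Finset.mem_range.2 hlt)
    rw [div_le_iff₀ hxpos] at h1
    calc (embCount τ m : ℝ) ≤ C₂ * (2 * m : ℝ) ^ τ.chi := h1
      _ ≤ (4 * C₁ + C₂) * (2 * m : ℝ) ^ τ.chi := by
          apply mul_le_mul_of_nonneg_right _ hxpos.le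
          linarith
      _ ≤ (4 * C₁ + C₂) * (2 * m : ℝ) ^ τ.chi * (NMap p q m : ℝ) := by
          apply le_mul_of_one_le_right _ hN1
          positivity
  · have hNm : N ≤ 2 * m := by
      have : m₁ + N ≤ m := hge
      omega
    have hm1 : m₁ ≤ m := by
      have : m₁ + N ≤ m := hge
      omega
    obtain ⟨w1, w2⟩ := hm₁ m hm1 hd.1 hd.2.1 hd.2.2
    obtain ⟨d1, d2, d3⟩ := dvd_facts τ hNm hd.1 hd.2.1 hd.2.2
    have hQ : Qratio p q (aD τ) (bP τ) (cP τ) (m - N / 2) ≤ C₁ := (hC _ d1 d2 d3).trans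
      (le_max_left _ _)
    rw [emb_eq hp hq τ hNm]
    have hR : 0 ≤ (2 * m : ℝ) ^ τ.chi * (NMap p q m : ℝ) := by positivity
    calc W τ m * Qratio p q (aD τ) (bP τ) (cP τ) (m - N / 2) ≤ W τ m * C₁ :=
          mul_le_mul_of_nonneg_left hQ (W_nonneg hp hq τ m)
      _ ≤ (2 * ((2 * m : ℝ) ^ τ.chi * (sNum p m * sNum q m * sNum 2 m))) * C₁ :=
          mul_le_mul_of_nonneg_right w1 hC₁
      _ ≤ (2 * ((2 * m : ℝ) ^ τ.chi * (2 * (NMap p q m : ℝ)))) * C₁ := by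
          apply mul_le_mul_of_nonneg_right _ hC₁
          apply mul_le_mul_of_nonneg_left _ two_pos.le
          exact mul_le_mul_of_nonneg_left w2 (hx m)
      _ = (4 * C₁) * ((2 * m : ℝ) ^ τ.chi * (NMap p q m : ℝ)) := by ring
      _ ≤ (4 * C₁ + C₂) * ((2 * m : ℝ) ^ τ.chi * (NMap p q m : ℝ)) := by
          apply mul_le_mul_of_nonneg_right _ hR
          linarith
      _ = (4 * C₁ + C₂) * (2 * m : ℝ) ^ τ.chi * (NMap p q m : ℝ) := by ring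

theorem Qratio_tendsto {p q : ℕ} (hyp : Hyp p q) {N : ℕ} (τ : PType p q (Fin N))
    (h : τ.HullStrict) :
    Tendsto (fun m : ℕ => Qratio p q (aD τ) (bP τ) (cP τ) (m - N / 2)) (lf p q) (𝓝 1) := by
  rw [Metric.tendsto_nhds]
  intro ε hε
  obtain ⟨z₀, hz₀⟩ := thmQ_strict hyp (aD τ) (bP τ) (cP τ) (isPM_aD τ) (isPM_bP τ) (isPM_cP τ)
    (hullStrict_transfer τ h) (ε / 2) (half_pos hε)
  refine of_forall_lf (z₀ + N) fun m hm d1 d2 d3 => ?_
  have hNm : N ≤ 2 * m := by omega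
  obtain ⟨e1, e2, e3⟩ := dvd_facts τ hNm d1 d2 d3
  have := hz₀ (m - N / 2) (by omega) e1 e2 e3
  rw [Real.dist_eq]
  linarith

/-- [7.3] Theorem P, strict hull condition -/
theorem thmP_strict {p q : ℕ} (hyp : Hyp p q) {N : ℕ} (τ : PType p q (Fin N))
    (h : τ.HullStrict) :
    ∀ ε : ℝ, 0 < ε → ∃ m₀ : ℕ, ∀ m : ℕ, m₀ ≤ m →
      |(embCount τ m : ℝ) - (2 * m : ℝ) ^ τ.chi * (NMap p q m : ℝ)| ≤
        ε * ((2 * m : ℝ) ^ τ.chi * (NMap p q m : ℝ)) := by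
  have hp : 0 < p := by have := hyp.hp; omega
  have hq : 0 < q := by have := hyp.hq; omega
  intro ε hε
  have hQ : (fun m : ℕ => Qratio p q (aD τ) (bP τ) (cP τ) (m - N / 2)) ~[lf p q]
      fun _ => (1 : ℝ) :=
    (isEquivalent_const_iff_tendsto one_ne_zero).2 (Qratio_tendsto hyp τ h)
  have h1 : (fun m : ℕ => (embCount τ m : ℝ)) ~[lf p q]
      fun m => W τ m * Qratio p q (aD τ) (bP τ) (cP τ) (m - N / 2) := by
    apply EventuallyEq.isEquivalent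
    exact of_forall_lf N fun m hm _ _ _ => emb_eq hp hq τ (by omega)
  have h2 : (fun m : ℕ => (embCount τ m : ℝ)) ~[lf p q]
      fun m : ℕ => (2 * m : ℝ) ^ τ.chi * (NMap p q m : ℝ) := by
    refine h1.trans (((W_equiv hp hq τ).mul hQ).trans ?_)
    have h3 : (fun m : ℕ => (2 * m : ℝ) ^ τ.chi * (sNum p m * sNum q m * sNum 2 m)) ~[lf p q]
        fun m : ℕ => (2 * m : ℝ) ^ τ.chi * (NMap p q m : ℝ) :=
      IsEquivalent.refl.mul (NMap_equiv hyp).symm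
    refine IsEquivalent.trans ?_ h3
    apply EventuallyEq.isEquivalent
    exact Eventually.of_forall fun m => by simp
  have h4 := (isLittleO_iff.1 h2) hε
  obtain ⟨m₁, hm₁⟩ := eventually_lf h4
  refine ⟨m₁ + 1, fun m hm => ?_⟩
  have hm0 : 0 < m := by omega
  by_cases hd : p ∣ m ∧ q ∣ m ∧ 2 ∣ m
  · have h5 := hm₁ m (by omega) hd.1 hd.2.1 hd.2.2
    simp only [Pi.sub_apply, Real.norm_eq_abs] at h5
    have hR : 0 ≤ (2 * m : ℝ) ^ τ.chi * (NMap p q m : ℝ) :=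
      mul_nonneg (Real.rpow_nonneg (by positivity) _) (Nat.cast_nonneg _)
    rwa [abs_of_nonneg hR] at h5
  · obtain ⟨z1, z2⟩ := zero_case τ hm0 hd
    rw [z1, z2]; simp

end MPbcd198.P
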