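import Pool.Agent.Lib.MP_bcd198_co.P.Basic

/-!
# MP_bcd198_co, Stream P: the data of Theorem Q attached to a planted type

Everything in this file is proved.  For a planted type `τ` on `Y`:
* `SS τ` = the flags in `S`, `P1 τ` = the flags `y ∉ S` with `c y ∈ S`, `P2 τ` = the flags
  `y ∉ S` with `c y ∉ S`;
* `aS τ`, `bS τ` = restrictions of `a`, `b` to `S`; `aD τ` = the forced `a`-matching
  `y ↦ c (a (c y))` on `P1 τ`; `cP τ` = restriction of `c` to `P2 τ`; `bP τ` = restriction of `b`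
  to the complement of `S`, seen on `P1 τ ⊕ P2 τ`;
* `E τ Z : SS τ ⊕ (P1 τ ⊕ (P2 τ ⊕ Z)) ≃ Y ⊕ Z`;
* `Compat τ Z M` : `M` is a map on `Y ⊕ Z` which extends the planted data;
* `NCond p q a b c t`: the condition in the definition of `Ncomp`;
* `Phi τ t`: the triple on `Y ⊕ Z` attached to `t = (a', b'', c'')`.
-/

set_option autoImplicit false
set_option linter.unusedSectionVars false

namespace MPbcd198.P

open Equiv

variable {p q : ℕ} {Y : Type} [DecidableEq Y]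

omit [DecidableEq Y] in
theorem cc (τ : PType p q Y) (x : Y) : τ.c (τ.c x) = x := (τ.pc x).2

omit [DecidableEq Y] in
theorem bb (τ : PType p q Y) (x : Y) : τ.b (τ.b x) = x := (τ.pb x).2

omit [DecidableEq Y] in
theorem a_mem (τ : PType p q Y) {x : Y} (h : x ∈ τ.S) : τ.a x ∈ τ.S := by
  rw [← τ.a_supp] at h ⊢
  rw [τ.a_inv]
  exact h.symm

omit [DecidableEq Y] in
theorem a_ne (τ : PType p q Y) {x : Y} (h : x ∈ τ.S) : τ.a x ≠ x := (τ.a_supp x).2 h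

omit [DecidableEq Y] in
theorem b_mem_iff (τ : PType p q Y) {x : Y} : τ.b x ∈ τ.S ↔ x ∈ τ.S :=
  ⟨fun h => by have := τ.bS _ h; rwa [bb] at this, τ.bS x⟩

/-- flags of `S` -/
abbrev SS (τ : PType p q Y) : Type := {y : Y // y ∈ τ.S}

/-- flags `y ∉ S` with `c y ∈ S` -/
abbrev P1 (τ : PType p q Y) : Type := {y : Y // y ∉ τ.S ∧ τ.c y ∈ τ.S}

/-- flags `y ∉ S` with `c y ∉ S` -/
abbrev P2 (τ : PType p q Y) : Type := {y : Y // y ∉ τ.S ∧ τ.c y ∉ τ.S}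

/-- `a` on `S` -/
def aS (τ : PType p q Y) : Perm (SS τ) where
  toFun y := ⟨τ.a y.1, a_mem τ y.2⟩
  invFun y := ⟨τ.a y.1, a_mem τ y.2⟩
  left_inv y := Subtype.ext (τ.a_inv y.1)
  right_inv y := Subtype.ext (τ.a_inv y.1)

/-- `b` on `S` -/
def bS (τ : PType p q Y) : Perm (SS τ) where
  toFun y := ⟨τ.b y.1, τ.bS _ y.2⟩
  invFun y := ⟨τ.b y.1, τ.bS _ y.2⟩
  left_inv y := Subtype.ext (bb τ y.1)
  right_inv y := Subtype.ext (bb τ y.1)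

omit [DecidableEq Y] in
theorem aD_aux (τ : PType p q Y) {y : Y} (h : y ∉ τ.S ∧ τ.c y ∈ τ.S) :
    τ.c (τ.a (τ.c y)) ∉ τ.S ∧ τ.c (τ.c (τ.a (τ.c y))) ∈ τ.S := by
  refine ⟨τ.ac_out _ h.2 ?_, ?_⟩
  · rw [cc]; exact h.1
  · rw [cc]; exact a_mem τ h.2

/-- the forced matching `y ↦ c (a (c y))` on `P1 τ` -/
def aD (τ : PType p q Y) : Perm (P1 τ) where
  toFun y := ⟨τ.c (τ.a (τ.c y.1)), aD_aux τ y.2⟩
  invFun y := ⟨τ.c (τ.a (τ.c y.1)), aD_aux τ y.2⟩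
  left_inv y := Subtype.ext (by simp only [cc, τ.a_inv])
  right_inv y := Subtype.ext (by simp only [cc, τ.a_inv])

omit [DecidableEq Y] in
theorem cP_aux (τ : PType p q Y) {y : Y} (h : y ∉ τ.S ∧ τ.c y ∉ τ.S) :
    τ.c y ∉ τ.S ∧ τ.c (τ.c y) ∉ τ.S := ⟨h.2, by rw [cc]; exact h.1⟩

/-- `c` on `P2 τ` -/
def cP (τ : PType p q Y) : Perm (P2 τ) where
  toFun y := ⟨τ.c y.1, cP_aux τ y.2⟩
  invFun y := ⟨τ.c y.1, cP_aux τ y.2⟩
  left_inv y := Subtype.ext (cc τ y.1)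
  right_inv y := Subtype.ext (cc τ y.1)

/-- `b` on the complement of `S` -/
def bN (τ : PType p q Y) : Perm {y : Y // y ∉ τ.S} where
  toFun y := ⟨τ.b y.1, fun h => y.2 ((b_mem_iff τ).1 h)⟩
  invFun y := ⟨τ.b y.1, fun h => y.2 ((b_mem_iff τ).1 h)⟩
  left_inv y := Subtype.ext (bb τ y.1)
  right_inv y := Subtype.ext (bb τ y.1)

/-- `P1 τ ⊕ P2 τ` is the complement of `S` -/
def e0 (τ : PType p q Y) : P1 τ ⊕ P2 τ ≃ {y : Y // y ∉ τ.S} where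
  toFun := Sum.elim (fun y => ⟨y.1, y.2.1⟩) (fun y => ⟨y.1, y.2.1⟩)
  invFun y := if h : τ.c y.1 ∈ τ.S then Sum.inl ⟨y.1, y.2, h⟩ else Sum.inr ⟨y.1, y.2, h⟩
  left_inv := by
    rintro (y | y)
    · simp [y.2.2]
    · simp [y.2.2]
  right_inv y := by
    by_cases h : τ.c y.1 ∈ τ.S
    · simp [h]
    · simp [h]

/-- the underlying flag of an element of `P1 τ ⊕ P2 τ` -/
def fl (τ : PType p q Y) (x : P1 τ ⊕ P2 τ) : Y := (e0 τ x).1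

@[simp] theorem fl_inl (τ : PType p q Y) (y : P1 τ) : fl τ (Sum.inl y) = y.1 := rfl
@[simp] theorem fl_inr (τ : PType p q Y) (y : P2 τ) : fl τ (Sum.inr y) = y.1 := rfl

theorem fl_injective (τ : PType p q Y) : Function.Injective (fl τ) :=
  Subtype.val_injective.comp (e0 τ).injective

theorem fl_not_mem (τ : PType p q Y) (x : P1 τ ⊕ P2 τ) : fl τ x ∉ τ.S := (e0 τ x).2

theorem exists_fl (τ : PType p q Y) {y : Y} (h : y ∉ τ.S) : ∃ x, fl τ x = y :=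
  ⟨(e0 τ).symm ⟨y, h⟩, by rw [fl, Equiv.apply_symm_apply]⟩

/-- `b` on `P1 τ ⊕ P2 τ` -/
def bP (τ : PType p q Y) : Perm (P1 τ ⊕ P2 τ) := (e0 τ).symm.permCongr (bN τ)

@[simp] theorem fl_bP (τ : PType p q Y) (x : P1 τ ⊕ P2 τ) : fl τ (bP τ x) = τ.b (fl τ x) := by
  simp [fl, bP, bN]

@[simp] theorem aS_val (τ : PType p q Y) (y : SS τ) : (aS τ y).1 = τ.a y.1 := rfl
@[simp] theorem bS_val (τ : PType p q Y) (y : SS τ) : (bS τ y).1 = τ.b y.1 := rfl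
@[simp] theorem aD_val (τ : PType p q Y) (y : P1 τ) : (aD τ y).1 = τ.c (τ.a (τ.c y.1)) := rfl
@[simp] theorem cP_val (τ : PType p q Y) (y : P2 τ) : (cP τ y).1 = τ.c y.1 := rfl

theorem isPM_aS (τ : PType p q Y) : IsPM (aS τ) := fun y =>
  ⟨fun h => a_ne τ y.2 (congrArg Subtype.val h), Subtype.ext (τ.a_inv y.1)⟩

theorem isPM_bS (τ : PType p q Y) : IsPM (bS τ) := fun y =>
  ⟨fun h => (τ.pb y.1).1 (congrArg Subtype.val h), Subtype.ext (bb τ y.1)⟩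

theorem isPM_aD (τ : PType p q Y) : IsPM (aD τ) := fun y =>
  ⟨fun h => by
    have h1 : τ.c (τ.a (τ.c y.1)) = y.1 := congrArg Subtype.val h
    have h2 := congrArg τ.c h1
    rw [cc] at h2
    exact a_ne τ y.2.2 h2, (aD τ).left_inv y⟩

theorem isPM_cP (τ : PType p q Y) : IsPM (cP τ) := fun y =>
  ⟨fun h => (τ.pc y.1).1 (congrArg Subtype.val h), Subtype.ext (cc τ y.1)⟩

theorem isPM_bP (τ : PType p q Y) : IsPM (bP τ) := by
  intro x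
  constructor
  · intro h
    have := congrArg (fl τ) h
    rw [fl_bP] at this
    exact (τ.pb _).1 this
  · apply fl_injective τ
    rw [fl_bP, fl_bP, bb]

theorem rel_aS_bS (τ : PType p q Y) : Rel p (aS τ) (bS τ) := by
  intro x
  have h := minimalPeriod_semiconj (f := ⇑(aS τ * bS τ)) (g := ⇑(τ.a * τ.b))
    (i := Subtype.val) Subtype.val_injective (fun y => rfl) x
  rw [← h]
  exact τ.ab x.1 x.2

/-- `S ⊕ (P₁ ⊕ (P₂ ⊕ Z)) ≃ Y ⊕ Z` -/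
def E (τ : PType p q Y) (Z : Type) : SS τ ⊕ (P1 τ ⊕ (P2 τ ⊕ Z)) ≃ Y ⊕ Z where
  toFun x := match x with
    | Sum.inl s => Sum.inl s.1
    | Sum.inr (Sum.inl y) => Sum.inl y.1
    | Sum.inr (Sum.inr (Sum.inl y)) => Sum.inl y.1
    | Sum.inr (Sum.inr (Sum.inr z)) => Sum.inr z
  invFun x := match x with
    | Sum.inl y => if h : y ∈ τ.S then Sum.inl ⟨y, h⟩ else
        if h' : τ.c y ∈ τ.S then Sum.inr (Sum.inl ⟨y, h, h'⟩)
        else Sum.inr (Sum.inr (Sum.inl ⟨y, h, h'⟩))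
    | Sum.inr z => Sum.inr (Sum.inr (Sum.inr z))
  left_inv := by
    rintro (s | y | y | z)
    · simp [s.2]
    · simp [y.2.1, y.2.2]
    · simp [y.2.1, y.2.2]
    · rfl
  right_inv := by
    rintro (y | z)
    · by_cases h : y ∈ τ.S
      · simp [h]
      · by_cases h' : τ.c y ∈ τ.S
        · simp [h, h']
        · simp [h, h']
    · rfl

section

variable {Z : Type}

@[simp] theorem E_S (τ : PType p q Y) (s : SS τ) : E τ Z (Sum.inl s) = Sum.inl s.1 := rfl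
@[simp] theorem E_1 (τ : PType p q Y) (y : P1 τ) :
    E τ Z (Sum.inr (Sum.inl y)) = Sum.inl y.1 := rfl
@[simp] theorem E_2 (τ : PType p q Y) (y : P2 τ) :
    E τ Z (Sum.inr (Sum.inr (Sum.inl y))) = Sum.inl y.1 := rfl
@[simp] theorem E_Z (τ : PType p q Y) (z : Z) :
    E τ Z (Sum.inr (Sum.inr (Sum.inr z))) = Sum.inr z := rfl

/-- `M` is a map on `Y ⊕ Z` extending the planted data of `τ` -/
def Compat (τ : PType p q Y) (Z : Type) (M : Trip (Y ⊕ Z)) : Prop :=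
  IsMap p q M.1 M.2.1 M.2.2 ∧ (∀ y, M.2.1 (Sum.inl y) = Sum.inl (τ.b y)) ∧
    (∀ y, M.2.2 (Sum.inl y) = Sum.inl (τ.c y)) ∧ ∀ y ∈ τ.S, M.1 (Sum.inl y) = Sum.inl (τ.a y)

/-- the condition in `Ncomp` -/
def NCond {P₁ P₂ : Type} (p q : ℕ) (a : Perm P₁) (b : Perm (P₁ ⊕ P₂)) (c : Perm P₂)
    (t : Perm (P₂ ⊕ Z) × Perm Z × Perm Z) : Prop :=
  IsPM t.1 ∧ IsPM t.2.1 ∧ IsPM t.2.2 ∧ Rel p (combA a t.1) (combB b t.2.1) ∧
      Rel q t.2.1 t.2.2 ∧ Rel 2 t.1 (Equiv.sumCongr c t.2.2)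

/-- the `a`-matching on `Y ⊕ Z` attached to `a'` -/
def PhiA (τ : PType p q Y) (a' : Perm (P2 τ ⊕ Z)) : Perm (Y ⊕ Z) :=
  (E τ Z).permCongr (Equiv.sumCongr (aS τ) (combA (aD τ) a'))

/-- the triple on `Y ⊕ Z` attached to `t = (a', b'', c'')` -/
def Phi (τ : PType p q Y) (t : Perm (P2 τ ⊕ Z) × Perm Z × Perm Z) : Trip (Y ⊕ Z) :=
  (PhiA τ t.1, Equiv.sumCongr τ.b t.2.1, Equiv.sumCongr τ.c t.2.2)

theorem PhiA_E (τ : PType p q Y) (a' : Perm (P2 τ ⊕ Z)) (x : SS τ ⊕ (P1 τ ⊕ (P2 τ ⊕ Z))) :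
    PhiA τ a' (E τ Z x) = E τ Z (Equiv.sumCongr (aS τ) (combA (aD τ) a') x) := by
  rw [PhiA, Equiv.permCongr_apply, Equiv.symm_apply_apply]

@[simp] theorem PhiA_S (τ : PType p q Y) (a' : Perm (P2 τ ⊕ Z)) {y : Y} (h : y ∈ τ.S) :
    PhiA τ a' (Sum.inl y) = Sum.inl (τ.a y) :=
  PhiA_E τ a' (Sum.inl ⟨y, h⟩)

theorem PhiA_1 (τ : PType p q Y) (a' : Perm (P2 τ ⊕ Z)) {y : Y} (h : y ∉ τ.S)
    (h' : τ.c y ∈ τ.S) : PhiA τ a' (Sum.inl y) = Sum.inl (τ.c (τ.a (τ.c y))) :=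
  PhiA_E τ a' (Sum.inr (Sum.inl ⟨y, h, h'⟩))

/-- `PhiA` on `P₂ ⊕ Z` -/
theorem PhiA_2 (τ : PType p q Y) (a' : Perm (P2 τ ⊕ Z)) (x : P2 τ ⊕ Z) :
    PhiA τ a' (E τ Z (Sum.inr (Sum.inr x))) = E τ Z (Sum.inr (Sum.inr (a' x))) :=
  PhiA_E τ a' (Sum.inr (Sum.inr x))

end

/-- number of pairs (map, planted copy of `τ`) -/
noncomputable def embCount {p q N : ℕ} (τ : PType p q (Fin N)) (m : ℕ) : ℕ :=
  Nat.card {x : MapOn p q (Fin (2 * m)) × (Fin N ↪ Fin (2 * m)) //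
    (∀ y, x.2 (τ.b y) = x.1.1.2.1 (x.2 y)) ∧ (∀ y, x.2 (τ.c y) = x.1.1.2.2 (x.2 y)) ∧
      ∀ y ∈ τ.S, x.2 (τ.a y) = x.1.1.1 (x.2 y)}

end MPbcd198.P
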